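import Pool.Agent.H13MU.Sym
import Pool.Agent.H713R2.AR.PR

set_option autoImplicit false

/-! # The point of an equipotential of a Multibrot set which is closest to the cusp -/

namespace Pool.Agent.H13MU

open Complex Metric Set Filter Topology Bornology Asymptotics Pool.Agent.H712R2
  Pool.Agent.H713R2 N62a1eb23

theorem BB_near {d : ℕ} (hd : 2 ≤ d) {β : ℂ → ℂ} (hβ : IsBeta d β) (n : ℕ) {x : ℂ}
    (hx : x ∈ ball (0 : ℂ) 1) :
    ‖BB d β n x - 1‖ ≤ 3 * ‖x‖ ^ (d ^ (n + 1) - 1) := by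
  have hK : d ^ (n + 1) - 1 ≠ 0 := by
    have : 1 < d ^ (n + 1) := Nat.one_lt_pow (by omega) (by omega)
    omega
  obtain ⟨K, hKe⟩ := Nat.exists_eq_succ_of_ne_zero hK
  have h0 : BB d β n 0 = 1 := by rw [BB_at_zero hd, hβ.zero, one_pow]
  have h1 := Complex.dist_le_mul_div_pow_of_mapsTo_ball_of_isLittleO (f := BB d β n) (c := 0)
    (z := x) (R₁ := 1) (R₂ := 3) (n := K) (BB_diff hβ.diff n) ?_ ?_ hx
  · rw [h0, dist_eq_norm, dist_zero_right, ← Nat.succ_eq_add_one, ← hKe, div_one] at h1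
    exact h1
  · intro y hy
    rw [mem_closedBall, h0, dist_eq_norm]
    calc ‖BB d β n y - 1‖ ≤ ‖BB d β n y‖ + ‖(1 : ℂ)‖ := norm_sub_le _ _
      _ ≤ 3 := by rw [norm_one]; linarith [AR.BB_le_two hd hβ n hy]
  · rw [h0]
    obtain ⟨C, hC⟩ := hβ.order n
    have h2 : (fun x => BB d β n x - 1) =O[𝓝 0] (fun x : ℂ => x ^ (K + 1)) := by
      refine IsBigO.of_bound C ?_
      filter_upwards [ball_mem_nhds (0 : ℂ) (show (0 : ℝ) < 1 / 2 by norm_num)] with y hy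
      rw [norm_pow, ← Nat.succ_eq_add_one, ← hKe]
      exact hC y hy
    refine h2.trans_isLittleO ?_
    have h3 : (fun x : ℂ => x ^ (K + 1)) =o[𝓝 0] (fun x : ℂ => x ^ K) :=
      isLittleO_pow_pow (Nat.lt_succ_self K)
    refine h3.norm_right.congr (fun _ => rfl) (fun x => ?_)
    rw [sub_zero, norm_pow]

section

variable {d : ℕ} (hd : 2 ≤ d) {ψ : ℂ → ℂ} (hψ : IsExteriorMap (multibrotSet d) ψ)
include hd hψ

theorem P_near {w : ℂ} (hw : 1 < ‖w‖) (n : ℕ) :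
    ‖P d (n + 1) (ψ w) - w ^ (d ^ n)‖ ≤ 3 * ‖w‖ := by
  obtain ⟨β, hβ⟩ := exists_beta (d := d) hd
  obtain ⟨hx, hx0⟩ := inv_mem_ball hw
  have h1 := BB_near hd hβ n hx
  have h2 := BB_eq hd β n w⁻¹ hx0
  rw [inv_inv, ← exteriorMap_unique hβ hψ hw] at h2
  have hw0 : w ≠ 0 := norm_pos_iff.1 (by linarith)
  have hpos : 0 < ‖w‖ := by linarith
  have h3 : P d (n + 1) (ψ w) - w ^ (d ^ n) = w ^ (d ^ n) * (BB d β n w⁻¹ - 1) := by
    rw [h2, inv_pow]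
    field_simp
  rw [h3, norm_mul, norm_pow]
  refine (mul_le_mul_of_nonneg_left h1 (by positivity)).trans ?_
  rw [norm_inv, inv_pow]
  have h4 : d ^ n ≤ d ^ (n + 1) - 1 + 1 := by
    have h5 : 1 ≤ d ^ (n + 1) := Nat.one_le_pow _ _ (by omega)
    rw [Nat.sub_add_cancel h5]
    exact Nat.pow_le_pow_right (by omega) (by omega)
  have h5 : ‖w‖ ^ (d ^ n) ≤ ‖w‖ ^ (d ^ (n + 1) - 1) * ‖w‖ := by
    rw [← pow_succ]
    exact pow_le_pow_right₀ hw.le h4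
  have h6 : 0 < ‖w‖ ^ (d ^ (n + 1) - 1) := by positivity
  calc ‖w‖ ^ d ^ n * (3 * (‖w‖ ^ (d ^ (n + 1) - 1))⁻¹)
      = 3 * (‖w‖ ^ d ^ n / ‖w‖ ^ (d ^ (n + 1) - 1)) := by ring
    _ ≤ 3 * ‖w‖ := by
        apply mul_le_mul_of_nonneg_left _ (by norm_num)
        rw [div_le_iff₀ h6]
        linarith

variable {x₀ : ℝ} (hx : IsCusp d x₀)
include hx

/-- the function `ψ` on the real axis, minus the cusp -/
theorem psi_real_eq {s : ℝ} (hs : 1 < s) :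
    ψ s = (((x₀ - x₀ ^ d) + ((ψ s).re - (x₀ - x₀ ^ d)) : ℝ) : ℂ) := by
  obtain ⟨c, hc, -⟩ := psi_real_pos hd hψ hx hs
  rw [hc]
  simp

theorem g_pos {s : ℝ} (hs : 1 < s) : 0 < (ψ s).re - (x₀ - x₀ ^ d) := by
  obtain ⟨c, hc, h⟩ := psi_real_pos hd hψ hx hs
  rw [hc, Complex.ofReal_re]
  linarith

theorem norm_g {s : ℝ} (hs : 1 < s) :
    ‖ψ s - ((x₀ - x₀ ^ d : ℝ) : ℂ)‖ = (ψ s).re - (x₀ - x₀ ^ d) := by
  have h3 := g_pos hd hψ hx hs
  obtain ⟨c, hc, -⟩ := psi_real_pos hd hψ hx hs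
  rw [hc, Complex.ofReal_re] at h3 ⊢
  rw [← Complex.ofReal_sub, Complex.norm_real, Real.norm_eq_abs, abs_of_pos h3]

/-- **the Green's function on a circle around the cusp is largest on the real axis** -/
theorem green_le {z₀ : ℂ} (hz : 1 < ‖z₀‖) {s : ℝ} (hs : 1 < s)
    (h : ‖ψ z₀ - ((x₀ - x₀ ^ d : ℝ) : ℂ)‖ ≤ (ψ s).re - (x₀ - x₀ ^ d)) : ‖z₀‖ ≤ s := by
  by_contra hcon
  push Not at hcon
  have hc0 := cusp_c_pos hd hx
  have hd1 : (1 : ℝ) < d := by exact_mod_cast (show 1 < d by omega)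
  have key : ∀ n : ℕ, (d : ℝ) ^ n * (‖z₀‖ - s) ≤ 6 * ‖z₀‖ := by
    intro n
    have h1 := P_near hd hψ hz n
    have hsn : ‖(s : ℂ)‖ = s := by
      rw [Complex.norm_real, Real.norm_eq_abs, abs_of_pos (by linarith)]
    have h2 := P_near hd hψ (w := s) (by rw [hsn]; exact hs) n
    rw [hsn] at h2
    have h3 : ‖P d (n + 1) (ψ z₀)‖ ≤ ‖P d (n + 1) (ψ s)‖ := by
      have h4 := P_cusp_le (d := d) hc0.le (ψ z₀ - ((x₀ - x₀ ^ d : ℝ) : ℂ)) (n + 1)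
      rw [show ((x₀ - x₀ ^ d : ℝ) : ℂ) + (ψ z₀ - ((x₀ - x₀ ^ d : ℝ) : ℂ)) = ψ z₀ by ring] at h4
      refine h4.trans ((pr_mono (by positivity) (add_le_add_right h _) (n + 1)).trans ?_)
      rw [psi_real_eq hd hψ hx hs, P_real, Complex.norm_real]
      simp only [Complex.ofReal_re, add_sub_cancel_left]
      exact le_abs_self _
    have h5 : ‖z₀‖ ^ (d ^ n) - 3 * ‖z₀‖ ≤ ‖P d (n + 1) (ψ z₀)‖ := by
      have h6 := norm_sub_norm_le (z₀ ^ (d ^ n)) (P d (n + 1) (ψ z₀))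
      rw [norm_pow, norm_sub_rev] at h6
      linarith
    have h8 : ‖P d (n + 1) (ψ s)‖ ≤ s ^ (d ^ n) + 3 * s := by
      have h6 := norm_sub_norm_le (P d (n + 1) (ψ s)) ((s : ℂ) ^ (d ^ n))
      rw [norm_pow, hsn] at h6
      linarith
    have h9 : (d : ℝ) ^ n * (‖z₀‖ - s) ≤ ‖z₀‖ ^ (d ^ n) - s ^ (d ^ n) := by
      have h10 := one_add_mul_le_pow (a := ‖z₀‖ / s - 1) (by
        have : 0 < ‖z₀‖ / s := by positivity
        linarith) (d ^ n)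
      rw [show 1 + (‖z₀‖ / s - 1) = ‖z₀‖ / s by ring, div_pow] at h10
      have h11 : 1 ≤ s ^ (d ^ n) := one_le_pow₀ hs.le
      have h12 : s ≤ s ^ (d ^ n) := le_self_pow₀ hs.le (by positivity)
      have h13 : (1 + (d : ℝ) ^ n * (‖z₀‖ / s - 1)) * s ^ (d ^ n) ≤ ‖z₀‖ ^ (d ^ n) := by
        rw [le_div_iff₀ (by positivity)] at h10
        push_cast at h10
        exact h10
      have h14 : (d : ℝ) ^ n * (‖z₀‖ - s) = (d : ℝ) ^ n * (‖z₀‖ / s - 1) * s := by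
        field_simp
      have h15 : 0 ≤ (d : ℝ) ^ n * (‖z₀‖ / s - 1) := by
        have : 0 ≤ ‖z₀‖ / s - 1 := by
          rw [sub_nonneg, le_div_iff₀ (by linarith)]
          linarith
        positivity
      have h16 := mul_le_mul_of_nonneg_left h12 h15
      nlinarith
    linarith
  have hlim : Tendsto (fun n : ℕ => (d : ℝ) ^ n * (‖z₀‖ - s)) atTop atTop :=
    (tendsto_pow_atTop_atTop_of_one_lt hd1).atTop_mul_const (by linarith)
  obtain ⟨n, hn⟩ := (hlim.eventually (eventually_gt_atTop (6 * ‖z₀‖))).exists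
  exact absurd (key n) (not_le.2 hn)

end

end Pool.Agent.H13MU
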