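import Pool.Agent.H13MU.Gate2
import Pool.Agent.H13MU.Min

set_option autoImplicit false

/-! # The exterior map of a Multibrot set on the real axis near the cusp -/

namespace Pool.Agent.H13MU

open Complex Metric Set Filter Topology Bornology Asymptotics Pool.Agent.H712R2
  Pool.Agent.H713R2 N62a1eb23 Real

variable {d : ℕ} (hd : 2 ≤ d) {ψ : ℂ → ℂ} (hψ : IsExteriorMap (multibrotSet d) ψ)
  {x₀ : ℝ} (hx : IsCusp d x₀)
include hd hψ hx

theorem orbit_near {s : ℝ} (hs : 1 < s) (n : ℕ) :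
    |pr d ((x₀ - x₀ ^ d) + ((ψ s).re - (x₀ - x₀ ^ d))) (n + 1) - s ^ (d ^ n)| ≤ 3 * s := by
  have hsn : ‖(s : ℂ)‖ = s := by
    rw [Complex.norm_real, Real.norm_eq_abs, abs_of_pos (by linarith)]
  have h1 := P_near hd hψ (w := s) (by rw [hsn]; exact hs) n
  rw [hsn, psi_real_eq hd hψ hx hs, P_real, ← Complex.ofReal_pow, ← Complex.ofReal_sub,
    Complex.norm_real, Real.norm_eq_abs] at h1
  exact h1

theorem s_pow_le {t : ℝ} {n : ℕ} (h : (d : ℝ) ^ n ≤ Real.exp t) :
    (1 + Real.exp (-t)) ^ (d ^ n) ≤ 3 := by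
  have h1 : 1 + Real.exp (-t) ≤ Real.exp (Real.exp (-t)) := by
    have := Real.add_one_le_exp (Real.exp (-t))
    linarith
  have h2 : (1 + Real.exp (-t)) ^ (d ^ n) ≤ Real.exp (Real.exp (-t)) ^ (d ^ n) :=
    pow_le_pow_left₀ (by positivity) h1 _
  refine h2.trans ?_
  rw [← Real.exp_nat_mul]
  push_cast
  have h3 : (d : ℝ) ^ n * Real.exp (-t) ≤ 1 := by
    calc (d : ℝ) ^ n * Real.exp (-t) ≤ Real.exp t * Real.exp (-t) :=
          mul_le_mul_of_nonneg_right h (Real.exp_pos _).le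
      _ = 1 := by rw [← Real.exp_add]; simp
  refine (Real.exp_le_exp.2 h3).trans ?_
  linarith [Real.exp_one_lt_d9]

theorem g_tendsto : Tendsto
    (fun t : ℝ => (ψ ((1 + Real.exp (-t) : ℝ) : ℂ)).re - (x₀ - x₀ ^ d)) atTop (𝓝 0) := by
  rw [Metric.tendsto_atTop]
  intro ε hε
  obtain ⟨n, hn⟩ := exists_nat_gt (9 / ε)
  rw [div_lt_iff₀ hε] at hn
  refine ⟨max 0 (Real.log ((d : ℝ) ^ n)), fun t ht => ?_⟩
  have ht0 : 0 ≤ t := (le_max_left _ _).trans ht
  have hd0 : (0 : ℝ) < d := by exact_mod_cast (show 0 < d by omega)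
  have ht1 : (d : ℝ) ^ n ≤ Real.exp t := by
    rw [← Real.log_le_iff_le_exp (by positivity)]
    exact (le_max_right _ _).trans ht
  have hs : 1 < 1 + Real.exp (-t) := by linarith [Real.exp_pos (-t)]
  have hs2 : 1 + Real.exp (-t) ≤ 2 := by
    have := Real.exp_le_one_iff.2 (show -t ≤ 0 by linarith)
    linarith
  have hg := g_pos hd hψ hx hs
  obtain ⟨G, hG⟩ : ∃ G, G = (ψ ((1 + Real.exp (-t) : ℝ) : ℂ)).re - (x₀ - x₀ ^ d) := ⟨_, rfl⟩
  have h1 := orbit_near hd hψ hx hs n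
  rw [← hG] at h1 hg ⊢
  rw [Real.dist_eq, sub_zero, abs_of_pos hg]
  have h2 := s_pow_le hd hψ hx ht1
  have hc0 := cusp_c_pos hd hx
  have h3 : ∀ k : ℕ, k * G ≤ pr d ((x₀ - x₀ ^ d) + G) k := by
    intro k
    induction k with
    | zero => simp [pr]
    | succ k ih =>
      rw [pr_succ]
      have h4 := cusp_tangent hd hx (pr_nonneg (d := d) (c := (x₀ - x₀ ^ d) + G)
        (by linarith) k)
      push_cast
      linarith
  have h4 := h3 (n + 1)
  have h5 := (abs_le.1 h1).2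
  push_cast at h4
  nlinarith

/-- the main estimate -/
theorem g_bounds {δ : ℝ} (hδ0 : 0 < δ) (hδ1 : δ ≤ 1 / 10) : ∃ C : ℝ, 0 < C ∧
    ∀ᶠ t : ℝ in atTop,
      (1 - δ) ^ 2 / (1 + δ) * ((π * Real.log d) ^ 2 / ((d - 1) / (2 * x₀))) / (t + C) ^ 2 ≤
        (ψ ((1 + Real.exp (-t) : ℝ) : ℂ)).re - (x₀ - x₀ ^ d) ∧
      (ψ ((1 + Real.exp (-t) : ℝ) : ℂ)).re - (x₀ - x₀ ^ d) ≤
        (1 + δ) ^ 2 / (1 - δ) * ((π * Real.log d) ^ 2 / ((d - 1) / (2 * x₀))) / (t - C) ^ 2 := by
  obtain ⟨ε₀, C, hε₀, hC, hgate⟩ := gate hd hx hδ0 hδ1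
  have hx0 := hx.pos
  have hd1 : (2 : ℝ) ≤ d := by exact_mod_cast hd
  obtain ⟨A, hA⟩ : ∃ A : ℝ, A = (d - 1) / (2 * x₀) := ⟨_, rfl⟩
  simp only [← hA] at hgate ⊢
  have hA0 : 0 < A := by
    rw [hA]
    have : (0 : ℝ) < (d : ℝ) - 1 := by linarith
    positivity
  have hl0 : 0 < Real.log d := Real.log_pos (by linarith)
  obtain ⟨C₁, hC₁⟩ : ∃ C₁, C₁ = 3 + (2 * C + 3) * Real.log d := ⟨_, rfl⟩
  have hC₁0 : 0 < C₁ := by rw [hC₁]; positivity
  refine ⟨C₁, hC₁0, ?_⟩
  have hlim := g_tendsto hd hψ hx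
  filter_upwards [hlim.eventually (gt_mem_nhds hε₀), eventually_gt_atTop (C₁ + 1)] with t ht ht1
  have ht0 : 0 < t := by linarith
  have hs : 1 < 1 + Real.exp (-t) := by linarith [Real.exp_pos (-t)]
  have hs2 : 1 + Real.exp (-t) ≤ 2 := by
    have := Real.exp_le_one_iff.2 (show -t ≤ 0 by linarith)
    linarith
  have hg := g_pos hd hψ hx hs
  have horb := fun n => orbit_near hd hψ hx hs n
  obtain ⟨G, hG⟩ : ∃ G, G = (ψ ((1 + Real.exp (-t) : ℝ) : ℂ)).re - (x₀ - x₀ ^ d) := ⟨_, rfl⟩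
  rw [← hG] at hg ht ⊢
  simp only [← hG] at horb
  obtain ⟨k, hk1, hk2, hk3, hk4⟩ := hgate G (pr d ((x₀ - x₀ ^ d) + G)) hg ht rfl
    (fun n => pr_succ d _ n)
  obtain ⟨s, hse⟩ : ∃ s, s = 1 + Real.exp (-t) := ⟨_, rfl⟩
  rw [← hse] at hs hs2 horb
  have hexp : Real.exp (-t) = s - 1 := by rw [hse]; ring
  have hls0 : 0 < Real.log s := Real.log_pos hs
  have hls1 : Real.log s ≤ Real.exp (-t) := by
    rw [hexp]
    exact Real.log_le_sub_one_of_pos (by linarith)
  have hls2 : Real.exp (-t) / 2 ≤ Real.log s := by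
    have h2 := Real.one_sub_inv_le_log_of_pos (show 0 < s by linarith)
    have h3 : (s - 1) / 2 ≤ 1 - s⁻¹ := by
      have h4 : 1 - s⁻¹ = (s - 1) / s := by
        field_simp
      rw [h4]
      exact div_le_div_of_nonneg_left (by linarith) (by linarith) hs2
    rw [hexp]
    linarith
  have hexpt : 0 < Real.exp t := Real.exp_pos t
  have hee : Real.exp t * Real.exp (-t) = 1 := by rw [← Real.exp_add]; simp
  -- (1)
  have b1 : (k : ℝ) * Real.log d ≤ t + 2 + 2 * Real.log d := by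
    rcases Nat.lt_or_ge k 2 with h | h
    · have h1 : (k : ℝ) ≤ 2 := by exact_mod_cast h.le
      have := mul_le_mul_of_nonneg_right h1 hl0.le
      linarith
    · obtain ⟨n, rfl⟩ := Nat.exists_eq_add_of_le' h
      have h1 := hk3 (n + 1) (by omega)
      have h2 := (abs_le.1 (horb n)).1
      have h3 : s ^ (d ^ n) ≤ 8 := by linarith
      have h4 : (d : ℝ) ^ n * Real.log s ≤ Real.log 8 := by
        have h5 := Real.log_le_log (by positivity) h3
        rw [Real.log_pow] at h5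
        push_cast at h5
        exact h5
      have h5 : Real.log 8 ≤ 3 := by
        rw [show (8 : ℝ) = 2 ^ 3 by norm_num, Real.log_pow]
        have := Real.log_two_lt_d9
        push_cast
        linarith
      have h6 : (d : ℝ) ^ n ≤ 6 * Real.exp t := by
        have h7 : (d : ℝ) ^ n * (Real.exp (-t) / 2) ≤ 3 :=
          (mul_le_mul_of_nonneg_left hls2 (by positivity)).trans (h4.trans h5)
        have h8 := mul_le_mul_of_nonneg_left h7 hexpt.le
        have h9 : Real.exp t * ((d : ℝ) ^ n * (Real.exp (-t) / 2)) = (d : ℝ) ^ n / 2 := by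
          linear_combination ((d : ℝ) ^ n / 2) * hee
        linarith
      have h7 := Real.log_le_log (by positivity) h6
      rw [Real.log_pow, Real.log_mul (by norm_num) hexpt.ne', Real.log_exp] at h7
      have h8 : Real.log 6 ≤ 2 := by
        rw [Real.log_le_iff_le_exp (by norm_num)]
        have h9 : Real.exp 2 = Real.exp 1 * Real.exp 1 := by
          rw [← Real.exp_add]; norm_num
        rw [h9]
        have := Real.exp_one_gt_d9
        nlinarith
      push_cast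
      nlinarith
  -- (2)
  have b2 : t ≤ (k + C + 1) * Real.log d := by
    obtain ⟨n, hn1, hn2⟩ : ∃ n : ℕ, (k : ℝ) + C ≤ n ∧ (n : ℝ) ≤ k + C + 1 :=
      ⟨⌈(k : ℝ) + C⌉₊, Nat.le_ceil _, (Nat.ceil_lt_add_one (by positivity)).le⟩
    have h1 := hk4 (n + 1) (by push_cast; linarith)
    have h2 := (abs_le.1 (horb n)).2
    have h3 : 6 ≤ s ^ (d ^ n) := by linarith
    have h4 : Real.log 6 ≤ (d : ℝ) ^ n * Real.log s := by
      have h5 := Real.log_le_log (by norm_num) h3
      rw [Real.log_pow] at h5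
      push_cast at h5
      exact h5
    have h5 : 1 ≤ Real.log 6 := by
      rw [Real.le_log_iff_exp_le (by norm_num)]
      linarith [Real.exp_one_lt_d9]
    have h6 : Real.exp t ≤ (d : ℝ) ^ n := by
      have h7 : 1 ≤ (d : ℝ) ^ n * Real.exp (-t) :=
        h5.trans (h4.trans (mul_le_mul_of_nonneg_left hls1 (by positivity)))
      have h8 := mul_le_mul_of_nonneg_left h7 hexpt.le
      have h9 : Real.exp t * ((d : ℝ) ^ n * Real.exp (-t)) = (d : ℝ) ^ n := by
        linear_combination ((d : ℝ) ^ n) * hee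
      linarith
    have h7 := Real.log_le_log hexpt h6
    rw [Real.log_pow, Real.log_exp] at h7
    exact h7.trans (mul_le_mul_of_nonneg_right hn2 hl0.le)
  have hpi := Real.pi_pos
  have hBp0 : 0 < (1 + δ) * A * G := by positivity
  have hBm0 : 0 < (1 - δ) * A * G := by
    have : 0 < 1 - δ := by linarith
    positivity
  constructor
  · have h1 : (1 - δ) * (π / √((1 + δ) * A * G)) * Real.log d ≤ t + C₁ := by
      have h2 := mul_le_mul_of_nonneg_right hk1 hl0.le
      rw [hC₁]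
      nlinarith
    have hsq : 0 < √((1 + δ) * A * G) := Real.sqrt_pos.2 hBp0
    have h2 : (1 - δ) * π * Real.log d / (t + C₁) ≤ √((1 + δ) * A * G) := by
      rw [div_le_iff₀ (by linarith)]
      have h3 : (1 - δ) * (π / √((1 + δ) * A * G)) * Real.log d =
          (1 - δ) * π * Real.log d / √((1 + δ) * A * G) := by ring
      rw [h3, div_le_iff₀ hsq] at h1
      linarith
    have h3 := pow_le_pow_left₀ (by
      have : 0 < 1 - δ := by linarith
      have : 0 < t + C₁ := by linarith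
      positivity) h2 2
    rw [Real.sq_sqrt hBp0.le] at h3
    have h4 : (1 - δ) ^ 2 / (1 + δ) * ((π * Real.log d) ^ 2 / A) / (t + C₁) ^ 2 =
        ((1 - δ) * π * Real.log d / (t + C₁)) ^ 2 / ((1 + δ) * A) := by
      have : t + C₁ ≠ 0 := by linarith
      field_simp
    rw [h4, div_le_iff₀ (by positivity)]
    linarith
  · have h1 : t - C₁ ≤ (1 + δ) * (π / √((1 - δ) * A * G)) * Real.log d := by
      have h2 := mul_le_mul_of_nonneg_right hk2 hl0.le
      rw [hC₁]
      nlinarith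
    have hsq : 0 < √((1 - δ) * A * G) := Real.sqrt_pos.2 hBm0
    have htC : 0 < t - C₁ := by linarith
    have h2 : √((1 - δ) * A * G) ≤ (1 + δ) * π * Real.log d / (t - C₁) := by
      rw [le_div_iff₀ htC]
      have h3 : (1 + δ) * (π / √((1 - δ) * A * G)) * Real.log d =
          (1 + δ) * π * Real.log d / √((1 - δ) * A * G) := by ring
      rw [h3, le_div_iff₀ hsq] at h1
      linarith
    have h3 := pow_le_pow_left₀ hsq.le h2 2
    rw [Real.sq_sqrt hBm0.le] at h3
    have h5 : 0 < 1 - δ := by linarith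
    have h4 : (1 + δ) ^ 2 / (1 - δ) * ((π * Real.log d) ^ 2 / A) / (t - C₁) ^ 2 =
        ((1 + δ) * π * Real.log d / (t - C₁)) ^ 2 / ((1 - δ) * A) := by
      field_simp
    rw [h4, le_div_iff₀ (by positivity)]
    linarith

theorem ratio_tendsto (C : ℝ) : Tendsto (fun t : ℝ => t ^ 2 / (t + C) ^ 2) atTop (𝓝 1) := by
  have h1 : Tendsto (fun t : ℝ => 1 + C / t) atTop (𝓝 (1 + 0)) :=
    tendsto_const_nhds.add (tendsto_const_nhds.div_atTop tendsto_id)
  have h2 := (h1.pow 2).inv₀ (by norm_num)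
  rw [add_zero, one_pow, inv_one] at h2
  refine h2.congr' ?_
  filter_upwards [eventually_gt_atTop 0, eventually_gt_atTop (-C)] with t ht ht2
  have h3 : t + C ≠ 0 := by linarith
  have h4 : 1 + C / t = (t + C) / t := by field_simp
  rw [h4, div_pow, inv_div]

/-- **the exterior map on the real axis near the cusp** -/
theorem g_asymp : Tendsto
    (fun t : ℝ => t ^ 2 * ((ψ ((1 + Real.exp (-t) : ℝ) : ℂ)).re - (x₀ - x₀ ^ d))) atTop
      (𝓝 ((π * Real.log d) ^ 2 / ((d - 1) / (2 * x₀)))) := by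
  obtain ⟨K, hK⟩ : ∃ K, K = (π * Real.log d) ^ 2 / ((d - 1) / (2 * x₀)) := ⟨_, rfl⟩
  rw [← hK]
  rw [tendsto_order]
  constructor
  · intro a ha
    obtain ⟨δ, hδ0, hδ1, hδ⟩ : ∃ δ : ℝ, 0 < δ ∧ δ ≤ 1 / 10 ∧ a < (1 - δ) ^ 2 / (1 + δ) * K := by
      have hc : ContinuousAt (fun δ : ℝ => (1 - δ) ^ 2 / (1 + δ) * K) 0 := by
        refine ContinuousAt.mul (ContinuousAt.div (by fun_prop) (by fun_prop) (by norm_num))
          continuousAt_const
      have h1 : a < (fun δ : ℝ => (1 - δ) ^ 2 / (1 + δ) * K) 0 := by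
        simp only [sub_zero, one_pow, add_zero, div_one, one_mul]
        exact ha
      have h2 := (hc.eventually (lt_mem_nhds h1)).filter_mono
        (nhdsWithin_le_nhds (s := Ioi 0))
      obtain ⟨δ, h3, h4⟩ := (h2.and (Ioo_mem_nhdsGT (show (0 : ℝ) < 1 / 10 by norm_num))).exists
      exact ⟨δ, h4.1, h4.2.le, h3⟩
    obtain ⟨C, hC, hev⟩ := g_bounds hd hψ hx hδ0 hδ1
    have h1 := (ratio_tendsto hd hψ hx C).const_mul ((1 - δ) ^ 2 / (1 + δ) * K)
    rw [mul_one] at h1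
    filter_upwards [hev, h1.eventually (lt_mem_nhds hδ), eventually_gt_atTop 0] with t h2 h3 ht
    rw [← hK] at h2
    have h4 := mul_le_mul_of_nonneg_left h2.1 (sq_nonneg t)
    refine lt_of_lt_of_le h3 (le_trans (le_of_eq ?_) h4)
    ring
  · intro b hb
    obtain ⟨δ, hδ0, hδ1, hδ⟩ : ∃ δ : ℝ, 0 < δ ∧ δ ≤ 1 / 10 ∧ (1 + δ) ^ 2 / (1 - δ) * K < b := by
      have hc : ContinuousAt (fun δ : ℝ => (1 + δ) ^ 2 / (1 - δ) * K) 0 := by
        refine ContinuousAt.mul (ContinuousAt.div (by fun_prop) (by fun_prop) (by norm_num))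
          continuousAt_const
      have h1 : (fun δ : ℝ => (1 + δ) ^ 2 / (1 - δ) * K) 0 < b := by
        simp only [sub_zero, one_pow, add_zero, div_one, one_mul]
        exact hb
      have h2 := (hc.eventually (gt_mem_nhds h1)).filter_mono
        (nhdsWithin_le_nhds (s := Ioi 0))
      obtain ⟨δ, h3, h4⟩ := (h2.and (Ioo_mem_nhdsGT (show (0 : ℝ) < 1 / 10 by norm_num))).exists
      exact ⟨δ, h4.1, h4.2.le, h3⟩
    obtain ⟨C, hC, hev⟩ := g_bounds hd hψ hx hδ0 hδ1
    have h1 := (ratio_tendsto hd hψ hx (-C)).const_mul ((1 + δ) ^ 2 / (1 - δ) * K)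
    rw [mul_one] at h1
    filter_upwards [hev, h1.eventually (gt_mem_nhds hδ), eventually_gt_atTop 0] with t h2 h3 ht
    rw [← hK] at h2
    have h4 := mul_le_mul_of_nonneg_left h2.2 (sq_nonneg t)
    refine lt_of_le_of_lt (h4.trans (le_of_eq ?_)) h3
    rw [sub_eq_add_neg t C]
    ring

end Pool.Agent.H13MU
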