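import Pool.Agent.H13MU.Asy
import Pool.Agent.H13MU.Hms
import Pool.Agent.H13MD.Hmf

set_option autoImplicit false

/-! # Harmonic measure of the Multibrot sets at the cusp -/

namespace Pool.Agent.H13MU

theorem aux_a {η : ℝ} (hη : 0 < η) (hη1 : η < 1) :
    (1 + η / 2) * (1 - η / 2) ^ 2 ≤ 1 - η / 4 := by
  nlinarith [mul_pos hη (sub_pos.2 hη1), mul_pos (mul_pos hη hη) (sub_pos.2 hη1)]

theorem aux_b {η : ℝ} (hη : 0 < η) (hη1 : η < 1) :
    1 + η / 16 ≤ (1 - η / 4) * (1 + η / 4) ^ 2 := by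
  nlinarith [mul_pos hη (sub_pos.2 hη1), mul_pos (mul_pos hη hη) (sub_pos.2 hη1)]

theorem aux_c {η : ℝ} (hη : 0 < η) : 1 + η / 16 ≤ (1 + η / 4) ^ 2 := by
  nlinarith [mul_pos hη hη]

theorem aux_d {η : ℝ} (hη : 0 < η) (hη1 : η < 1) :
    (1 + η / 4) * (1 + η / 4) ≤ 1 + 9 / 16 * η := by
  nlinarith [mul_pos hη (sub_pos.2 hη1)]

open Complex Metric Set Filter Topology Bornology Asymptotics Pool.Agent.H712R2
  Pool.Agent.H713R2 N62a1eb23 Real MeasureTheory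
open Pool.Agent.H13MD (mu mu_univ avg_eq int_const_mu fubini_log int_outer int_cont
  log_one_add_half koebe_omit)

section

variable {d : ℕ} (hd : 2 ≤ d) {ψ : ℂ → ℂ} (hψ : IsExteriorMap (multibrotSet d) ψ)
include hd hψ

omit hd hψ in
theorem ball_sub {s : ℝ} (hs : 1 < s) {A : ℝ} (hA : A ≤ s - 1) :
    ball (s : ℂ) A ⊆ {z | 1 < ‖z‖} := by
  intro z hz
  rw [mem_ball, dist_eq_norm] at hz
  have h1 := norm_sub_norm_le (s : ℂ) z
  rw [norm_sub_rev, Complex.norm_real, Real.norm_eq_abs, abs_of_pos (by linarith)] at h1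
  show 1 < ‖z‖
  linarith

omit hd in
theorem koebe_psi {s : ℝ} (hs : 1 < s) {A : ℝ} (hA0 : 0 < A) (hA : A ≤ s - 1) {u : ℂ}
    (hu : ∀ z ∈ ball (s : ℂ) A, ψ z ≠ u) : A * ‖deriv ψ s‖ ≤ 4 * ‖ψ s - u‖ := by
  have hsub := ball_sub hs hA
  have hmap : ∀ w ∈ ball (0 : ℂ) A, (s : ℂ) + w ∈ ball (s : ℂ) A := by
    intro w hw
    rw [mem_ball_zero_iff] at hw
    rw [mem_ball, dist_eq_norm, add_sub_cancel_left]
    exact hw
  have hd : DifferentiableOn ℂ (fun w => ψ (s + w)) (ball 0 A) :=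
    (hψ.diff.mono hsub).comp (by fun_prop) hmap
  have hi : InjOn (fun w => ψ (s + w)) (ball 0 A) := by
    intro x hx y hy hxy
    exact add_left_cancel (hψ.inj (hsub (hmap x hx)) (hsub (hmap y hy)) hxy)
  have h1 := koebe_omit hA0 hd hi (u := u) (fun w hw => hu _ (hmap w hw))
  have h2 : deriv (fun w => ψ (s + w)) 0 = deriv ψ s := by
    rw [deriv_comp_const_add, add_zero]
  simp only [add_zero] at h1
  rw [h2] at h1
  exact h1

omit hd in
theorem koebe_ball {s : ℝ} (hs : 1 < s) {c : ℂ}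
    (hc : ‖c - ψ s‖ < (s - 1) * ‖deriv ψ s‖ / 8) :
    ∃ z₀ : ℂ, 1 < ‖z₀‖ ∧ ψ z₀ = c ∧ 1 + (s - 1) / 2 ≤ ‖z₀‖ := by
  by_contra hcon
  push Not at hcon
  have h1 := koebe_psi hψ hs (A := (s - 1) / 2) (by linarith) (by linarith) (u := c)
    (fun z hz h => by
      have h2 := hcon z (ball_sub hs (by linarith) hz) h
      rw [mem_ball, dist_eq_norm] at hz
      have h3 := norm_sub_norm_le (s : ℂ) z
      rw [norm_sub_rev, Complex.norm_real, Real.norm_eq_abs, abs_of_pos (by linarith)] at h3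
      linarith)
  rw [norm_sub_rev] at h1
  linarith

variable {x₀ : ℝ} (hx : IsCusp d x₀)
include hx

theorem deriv_le {s : ℝ} (hs : 1 < s) :
    (s - 1) * ‖deriv ψ s‖ ≤ 4 * ((ψ s).re - (x₀ - x₀ ^ d)) := by
  have h1 := koebe_psi hψ hs (A := s - 1) (by linarith) le_rfl
    (u := ((x₀ - x₀ ^ d : ℝ) : ℂ)) (fun z hz h => by
    have h2 := psi_notMem hψ (ball_sub hs le_rfl hz)
    rw [h] at h2
    exact h2 (cusp_mem hd hx))
  rwa [norm_g hd hψ hx hs] at h1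

theorem exists_deriv {t t₂ : ℝ} (ht : t < t₂) :
    ∃ t' ∈ Ioo t t₂,
      ((ψ ((1 + Real.exp (-t) : ℝ) : ℂ)).re - (ψ ((1 + Real.exp (-t₂) : ℝ) : ℂ)).re) / (t₂ - t) ≤
      Real.exp (-t') * ‖deriv ψ ((1 + Real.exp (-t') : ℝ) : ℂ)‖ := by
  obtain ⟨f, hf⟩ : ∃ f : ℝ → ℝ, f = fun x => (ψ ((1 + Real.exp (-x) : ℝ) : ℂ)).re := ⟨_, rfl⟩
  have hs : ∀ x : ℝ, 1 < 1 + Real.exp (-x) := fun x => by
    have := Real.exp_pos (-x)
    linarith
  have hder : ∀ x : ℝ, HasDerivAt f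
      ((-Real.exp (-x)) • deriv ψ ((1 + Real.exp (-x) : ℝ) : ℂ)).re x := by
    intro x
    have hn : (((1 + Real.exp (-x) : ℝ) : ℂ)) ∈ {z : ℂ | 1 < ‖z‖} := by
      show 1 < ‖((1 + Real.exp (-x) : ℝ) : ℂ)‖
      rw [Complex.norm_real, Real.norm_eq_abs, abs_of_pos (by linarith [hs x])]
      exact hs x
    have h1 : HasDerivAt ψ (deriv ψ ((1 + Real.exp (-x) : ℝ) : ℂ))
        ((1 + Real.exp (-x) : ℝ) : ℂ) :=
      (hψ.diff.differentiableAt
        ((isOpen_lt continuous_const continuous_norm).mem_nhds hn)).hasDerivAt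
    have h2 := h1.comp_ofReal
    have h3 : HasDerivAt (fun x : ℝ => 1 + Real.exp (-x)) (-Real.exp (-x)) x := by
      have := ((hasDerivAt_neg x).exp).const_add 1
      simpa using this
    have h4 := h2.scomp x h3
    have h5 := Complex.reCLM.hasFDerivAt.comp_hasDerivAt x h4
    rw [hf]
    exact h5
  obtain ⟨t', ht', he⟩ := exists_hasDerivAt_eq_slope f _ ht
    (fun x _ => (hder x).continuousAt.continuousWithinAt) (fun x _ => hder x)
  refine ⟨t', ht', ?_⟩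
  have h3 : |((-Real.exp (-t')) • deriv ψ ((1 + Real.exp (-t') : ℝ) : ℂ)).re| ≤
      Real.exp (-t') * ‖deriv ψ ((1 + Real.exp (-t') : ℝ) : ℂ)‖ := by
    refine (abs_re_le_norm _).trans (le_of_eq ?_)
    rw [norm_smul, norm_neg, Real.norm_eq_abs, abs_of_pos (Real.exp_pos _)]
  refine le_trans ?_ h3
  rw [he]
  have hft : (ψ ((1 + Real.exp (-t) : ℝ) : ℂ)).re = f t := by rw [hf]
  have hft2 : (ψ ((1 + Real.exp (-t₂) : ℝ) : ℂ)).re = f t₂ := by rw [hf]
  rw [hft, hft2]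
  have h4 := neg_le_abs ((f t₂ - f t) / (t₂ - t))
  rw [← neg_div, neg_sub] at h4
  exact h4

theorem g_theta {θ : ℝ} (hθ : 0 < θ) : ∃ T : ℝ, 2000 ≤ T ∧ ∀ t : ℝ, T ≤ t →
    (1 - θ) * ((π * Real.log d) ^ 2 / ((d - 1) / (2 * x₀))) / t ^ 2 ≤
      (ψ ((1 + Real.exp (-t) : ℝ) : ℂ)).re - (x₀ - x₀ ^ d) ∧
    (ψ ((1 + Real.exp (-t) : ℝ) : ℂ)).re - (x₀ - x₀ ^ d) ≤
      (1 + θ) * ((π * Real.log d) ^ 2 / ((d - 1) / (2 * x₀))) / t ^ 2 := by
  have h1 := g_asymp hd hψ hx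
  obtain ⟨K, hK⟩ : ∃ K, K = (π * Real.log d) ^ 2 / ((d - 1) / (2 * x₀)) := ⟨_, rfl⟩
  rw [← hK] at h1 ⊢
  have hK0 : 0 < K := by
    rw [hK]
    have hd1 : (2 : ℝ) ≤ d := by exact_mod_cast hd
    have h2 : 0 < Real.log d := Real.log_pos (by linarith)
    have h3 : (0 : ℝ) < (d : ℝ) - 1 := by linarith
    have := hx.pos
    positivity
  have h2 := h1.eventually (lt_mem_nhds (show (1 - θ) * K < K by have := mul_pos hθ hK0; linarith))
  have h3 := h1.eventually (gt_mem_nhds (show K < (1 + θ) * K by have := mul_pos hθ hK0; linarith))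
  obtain ⟨T, hT⟩ := eventually_atTop.1 (h2.and h3)
  refine ⟨max 2000 T, le_max_left _ _, fun t ht => ?_⟩
  have ht0 : 2000 ≤ t := (le_max_left _ _).trans ht
  obtain ⟨h4, h5⟩ := hT t ((le_max_right _ _).trans ht)
  have ht2 : 0 < t ^ 2 := by positivity
  constructor
  · rw [div_le_iff₀ ht2]
    linarith
  · rw [le_div_iff₀ ht2]
    linarith

theorem upper_final {η : ℝ} (hη : 0 < η) (hη1 : η < 1) : ∃ T : ℝ, ∀ ρ τ : ℝ, 0 < ρ → T ≤ τ →
    ρ = (π * Real.log d) ^ 2 / ((d - 1) / (2 * x₀)) / τ ^ 2 → ∀ r : ℝ, 1 < r →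
      mu.real {θ : ℝ | ‖ψ (circleMap 0 r θ) - ((x₀ - x₀ ^ d : ℝ) : ℂ)‖ < ρ} ≤
        2 * π * Real.exp (-((1 - η) * τ)) := by
  obtain ⟨T, hT, hg⟩ := g_theta hd hψ hx (show 0 < η / 4 by linarith)
  obtain ⟨K, hK⟩ : ∃ K, K = (π * Real.log d) ^ 2 / ((d - 1) / (2 * x₀)) := ⟨_, rfl⟩
  rw [← hK] at hg ⊢
  refine ⟨2 * T + 8 / η ^ 2, fun ρ τ hρ hτ hρτ r hr => ?_⟩
  have hη2 : 0 < 8 / η ^ 2 := by positivity
  have hτ0 : 0 < τ := by linarith
  obtain ⟨t, ht⟩ : ∃ t, t = (1 - η / 2) * τ := ⟨_, rfl⟩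
  have htT : T ≤ t := by
    rw [ht]
    have := mul_pos (sub_pos.2 hη1) hτ0
    linarith
  have ht0 : 0 < t := by linarith
  have hs : 1 < 1 + Real.exp (-t) := by linarith [Real.exp_pos (-t)]
  have hKρ : K = ρ * τ ^ 2 := by
    rw [hρτ]
    field_simp
  have h1 : ρ * (1 + η / 2) ≤ (ψ ((1 + Real.exp (-t) : ℝ) : ℂ)).re - (x₀ - x₀ ^ d) := by
    refine le_trans ?_ (hg t htT).1
    rw [le_div_iff₀ (by positivity), hKρ, ht]
    have h2 : (1 + η / 2) * (1 - η / 2) ^ 2 ≤ 1 - η / 4 := aux_a hη hη1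
    have h3 : 0 ≤ ρ * τ ^ 2 := by positivity
    have h4 := mul_le_mul_of_nonneg_left h2 h3
    linarith
  have h2 := measure_upper hd hψ hx hr hs hρ (σ := ρ * (1 + η / 2)) (by have := mul_pos hρ hη; linarith) h1
  have h3 : ρ * (1 + η / 2) / ρ = 1 + η / 2 := by field_simp
  rw [h3] at h2
  have h4 := log_one_add_half (y := η / 2) (by linarith) (by linarith)
  have h5 : Real.log (1 + Real.exp (-t)) ≤ Real.exp (-t) := by
    have := Real.log_le_sub_one_of_pos (show 0 < 1 + Real.exp (-t) by linarith)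
    linarith
  have hm : 0 ≤ mu.real {θ : ℝ | ‖ψ (circleMap 0 r θ) - ((x₀ - x₀ ^ d : ℝ) : ℂ)‖ < ρ} :=
    measureReal_nonneg
  obtain ⟨M, hM⟩ : ∃ M, M =
    mu.real {θ : ℝ | ‖ψ (circleMap 0 r θ) - ((x₀ - x₀ ^ d : ℝ) : ℂ)‖ < ρ} := ⟨_, rfl⟩
  rw [← hM] at h2 hm ⊢
  have hpi := Real.pi_pos
  have h6 : M * (η / 4) ≤ 2 * π * Real.exp (-t) := by
    calc M * (η / 4) ≤ M * Real.log (1 + η / 2) := mul_le_mul_of_nonneg_left (by linarith) hm
      _ ≤ 2 * π * Real.log (1 + Real.exp (-t)) := h2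
      _ ≤ 2 * π * Real.exp (-t) := mul_le_mul_of_nonneg_left h5 (by positivity)
  have h7 : Real.exp (-t) * (4 / η) ≤ Real.exp (-((1 - η) * τ)) := by
    have h8 : 4 / η ≤ Real.exp (η / 2 * τ) := by
      have h9 := Real.add_one_le_exp (η / 2 * τ)
      have h10 : 4 / η ≤ η / 2 * τ := by
        have h11 : 8 / η ^ 2 ≤ τ := by linarith
        have h12 := mul_le_mul_of_nonneg_left h11 (show 0 ≤ η / 2 by linarith)
        have h13 : η / 2 * (8 / η ^ 2) = 4 / η := by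
          field_simp
          norm_num
        linarith
      linarith
    calc Real.exp (-t) * (4 / η) ≤ Real.exp (-t) * Real.exp (η / 2 * τ) :=
          mul_le_mul_of_nonneg_left h8 (Real.exp_pos _).le
      _ = Real.exp (-((1 - η) * τ)) := by
          rw [← Real.exp_add]
          congr 1
          rw [ht]
          ring
  have h8 : M = M * (η / 4) * (4 / η) := by
    field_simp
  rw [h8]
  calc M * (η / 4) * (4 / η) ≤ 2 * π * Real.exp (-t) * (4 / η) :=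
        mul_le_mul_of_nonneg_right h6 (by positivity)
    _ = 2 * π * (Real.exp (-t) * (4 / η)) := by ring
    _ ≤ _ := mul_le_mul_of_nonneg_left h7 (by positivity)

theorem lower_final {η : ℝ} (hη : 0 < η) (hη1 : η < 1) : ∃ T : ℝ, ∀ ρ τ : ℝ, 0 < ρ → T ≤ τ →
    ρ = (π * Real.log d) ^ 2 / ((d - 1) / (2 * x₀)) / τ ^ 2 → ∃ r₀ : ℝ, 1 < r₀ ∧
      ∀ r : ℝ, 1 < r → r < r₀ → 2 * π * Real.exp (-((1 + η) * τ)) ≤
        mu.real {θ : ℝ | ‖ψ (circleMap 0 r θ) - ((x₀ - x₀ ^ d : ℝ) : ℂ)‖ < ρ} := by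
  obtain ⟨T, hT, hg⟩ := g_theta hd hψ hx (show 0 < η / 16 by linarith)
  obtain ⟨K, hK⟩ : ∃ K, K = (π * Real.log d) ^ 2 / ((d - 1) / (2 * x₀)) := ⟨_, rfl⟩
  have hK0 : 0 < K := by
    rw [hK]
    have hd1 : (2 : ℝ) ≤ d := by exact_mod_cast hd
    have h2 : 0 < Real.log d := Real.log_pos (by linarith)
    have h3 : (0 : ℝ) < (d : ℝ) - 1 := by linarith
    have := hx.pos
    positivity
  rw [← hK] at hg ⊢
  refine ⟨T + 1000000 / η ^ 2, fun ρ τ hρ hτ hρτ => ?_⟩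
  have hη2 : 0 < 1000000 / η ^ 2 := by positivity
  have hτ0 : 0 < τ := by linarith
  have hτT : T ≤ τ := by linarith
  obtain ⟨b, hb⟩ : ∃ b, b = 1 + η / 4 := ⟨_, rfl⟩
  have hb1 : 1 < b := by rw [hb]; linarith
  obtain ⟨t, ht⟩ : ∃ t, t = b * τ := ⟨_, rfl⟩
  have htτ : τ < t := by rw [ht]; exact lt_mul_of_one_lt_left hτ0 hb1
  have ht0 : 0 < t := by linarith
  have htT : T ≤ t := by linarith
  have hbt : t < b * t := lt_mul_of_one_lt_left ht0 hb1
  refine ⟨1 + Real.exp (-(b * t)) / 8, by linarith [Real.exp_pos (-(b * t))], ?_⟩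
  intro r hr hr2
  obtain ⟨t', ht', hder⟩ := exists_deriv hd hψ hx hbt
  have ht't : t < t' := ht'.1
  have ht't2 : t' < b * t := ht'.2
  have ht'0 : 0 < t' := by linarith
  have hexp : 0 < Real.exp (-t') := Real.exp_pos _
  have hexp1 : Real.exp (-t') ≤ 1 := Real.exp_le_one_iff.2 (by linarith)
  -- the derivative
  have hder2 : K / (2 * t ^ 3) ≤ Real.exp (-t') * ‖deriv ψ ((1 + Real.exp (-t') : ℝ) : ℂ)‖ := by
    refine le_trans ?_ hder
    have h1 := (hg t htT).1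
    have h2 := (hg (b * t) (by linarith)).2
    have h3 : b * t - t = η / 4 * t := by rw [hb]; ring
    rw [h3, le_div_iff₀ (by positivity)]
    have h4 : K / (2 * t ^ 3) * (η / 4 * t) = η / 8 * (K / t ^ 2) := by
      field_simp
      norm_num
    have h5 : (1 - η / 16) * K / t ^ 2 = (1 - η / 16) * (K / t ^ 2) := by ring
    have h6 : (1 + η / 16) * K / (b * t) ^ 2 = (1 + η / 16) / b ^ 2 * (K / t ^ 2) := by
      field_simp
    rw [h4]
    rw [h5] at h1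
    rw [h6] at h2
    have hQ : 0 < K / t ^ 2 := by positivity
    have h7 : (1 + η / 16) / b ^ 2 ≤ 1 - η / 4 := by
      rw [div_le_iff₀ (by positivity), hb]
      exact aux_b hη hη1
    have h8 := mul_le_mul_of_nonneg_right h7 hQ.le
    have h9 := mul_pos hη hQ
    linarith
  obtain ⟨s, hs⟩ : ∃ s, s = 1 + Real.exp (-t') := ⟨_, rfl⟩
  have hs1 : 1 < s := by rw [hs]; linarith
  have hs' : s - 1 = Real.exp (-t') := by rw [hs]; ring
  rw [← hs] at hder2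
  obtain ⟨σ, hσe⟩ : ∃ σ, σ = (ψ s).re - (x₀ - x₀ ^ d) := ⟨_, rfl⟩
  have hc1 := hg t' (by linarith)
  rw [← hs, ← hσe] at hc1
  have hσ0 : 0 < σ := by rw [hσe]; exact g_pos hd hψ hx hs1
  have htt2 : t ^ 2 ≤ t' ^ 2 := pow_le_pow_left₀ ht0.le ht't.le 2
  have hσt : σ ≤ (1 + η / 16) * K / t ^ 2 := by
    refine hc1.2.trans ?_
    exact div_le_div_of_nonneg_left (by positivity) (by positivity) htt2
  have hσρ : σ ≤ ρ := by
    refine hσt.trans ?_
    rw [hρτ, div_le_div_iff₀ (by positivity) (by positivity), ht, hb]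
    have h2 : 1 + η / 16 ≤ (1 + η / 4) ^ 2 := aux_c hη
    have h3 := mul_le_mul_of_nonneg_left h2 (show 0 ≤ K * τ ^ 2 by positivity)
    linarith
  -- the disc around `ψ s`
  obtain ⟨δ, hδ⟩ : ∃ δ, δ = (s - 1) * ‖deriv ψ s‖ / 8 := ⟨_, rfl⟩
  have hδlow : K / (16 * t ^ 3) ≤ δ := by
    rw [hδ, hs']
    have : K / (16 * t ^ 3) = K / (2 * t ^ 3) / 8 := by
      field_simp
      norm_num
    rw [this]
    linarith
  have hδ0 : 0 < δ := lt_of_lt_of_le (by positivity) hδlow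
  have hδσ : δ ≤ σ := by
    have := deriv_le hd hψ hx hs1
    rw [← hσe] at this
    rw [hδ]
    linarith
  -- the second radius
  obtain ⟨s', hs'e⟩ : ∃ s', s' = 1 + Real.exp (-(5 / 4 * t')) := ⟨_, rfl⟩
  have hs'1 : 1 < s' := by rw [hs'e]; linarith [Real.exp_pos (-(5 / 4 * t'))]
  have hg' : σ / 2 ≤ (ψ s').re - (x₀ - x₀ ^ d) := by
    have h1 := (hg (5 / 4 * t') (by linarith)).1
    rw [← hs'e] at h1
    refine le_trans ?_ h1
    have h2 : (1 - η / 16) * K / (5 / 4 * t') ^ 2 = (1 - η / 16) * (16 / 25) * (K / t' ^ 2) := by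
      field_simp
      ring
    have h3 : (1 + η / 16) * K / t' ^ 2 = (1 + η / 16) * (K / t' ^ 2) := by ring
    rw [h2]
    have h4 := hc1.2
    rw [h3] at h4
    have hQ : 0 < K / t' ^ 2 := by positivity
    have h5 := mul_pos hη hQ
    have h6 := mul_pos (sub_pos.2 hη1) hQ
    linarith
  have hl := measure_lower hd hψ hx hr hs1 hs'1 (s₁ := 1 + (s - 1) / 2) (δ := δ)
    (by rw [← hσe]; exact hg') hδ0 (by rw [← hσe]; exact hδσ)
    (fun c hc => koebe_ball hψ hs1 (by rw [← hδ]; exact hc)) (by linarith)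
  rw [← hσe] at hl
  -- estimates
  have hm0 : 0 ≤ mu.real {θ : ℝ | ‖ψ (circleMap 0 r θ) - ((x₀ - x₀ ^ d : ℝ) : ℂ)‖ < σ} :=
    measureReal_nonneg
  have hmono : mu.real {θ : ℝ | ‖ψ (circleMap 0 r θ) - ((x₀ - x₀ ^ d : ℝ) : ℂ)‖ < σ} ≤
      mu.real {θ : ℝ | ‖ψ (circleMap 0 r θ) - ((x₀ - x₀ ^ d : ℝ) : ℂ)‖ < ρ} :=
    measureReal_mono (fun θ hθ => lt_of_lt_of_le hθ hσρ)
  have e1 : 1 / (32 * t) ≤ δ / σ := by
    rw [div_le_div_iff₀ (by positivity) hσ0, one_mul]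
    have h1 : σ ≤ 2 * K / t ^ 2 := by
      refine hσt.trans ?_
      apply div_le_div_of_nonneg_right _ (by positivity)
      have h0 := mul_pos (sub_pos.2 hη1) hK0
      linarith
    have h2 : 2 * K / t ^ 2 = K / (16 * t ^ 3) * (32 * t) := by
      field_simp
      norm_num
    calc σ ≤ 2 * K / t ^ 2 := h1
      _ = K / (16 * t ^ 3) * (32 * t) := h2
      _ ≤ δ * (32 * t) := mul_le_mul_of_nonneg_right hδlow (by positivity)
  have e2 : Real.exp (-t') / 4 ≤ Real.log (1 + (s - 1) / 2) := by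
    rw [hs']
    have := log_one_add_half (y := Real.exp (-t') / 2) (by positivity) (by linarith)
    linarith
  have e3 : Real.log r ≤ Real.exp (-t') / 8 := by
    have h1 := Real.log_le_sub_one_of_pos (show 0 < r by linarith)
    have h2 : Real.exp (-(b * t)) ≤ Real.exp (-t') := Real.exp_le_exp.2 (by linarith)
    linarith
  have e4 : Real.log s' ≤ Real.exp (-(5 / 4 * t')) := by
    have := Real.log_le_sub_one_of_pos (show 0 < s' by linarith)
    rw [hs'e] at this ⊢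
    linarith
  have hpi := Real.pi_pos
  have e5 : 2 * π * Real.exp (-(5 / 4 * t')) ≤ Real.exp (-t') / (512 * t) := by
    have h1 : Real.exp (-(5 / 4 * t')) = Real.exp (-t') * Real.exp (-(t' / 4)) := by
      rw [← Real.exp_add]
      congr 1
      ring
    have h2 : Real.exp (-(t' / 4)) ≤ 384 / t' ^ 3 := by
      have h3 := Real.pow_div_factorial_le_exp (t' / 4) (by positivity) 3
      have h4 : (t' / 4) ^ 3 / ((Nat.factorial 3 : ℕ) : ℝ) = t' ^ 3 / 384 := by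
        simp [Nat.factorial]
        ring
      rw [h4] at h3
      rw [Real.exp_neg, ← one_div, div_le_div_iff₀ (Real.exp_pos _) (by positivity)]
      rw [div_le_iff₀ (by norm_num)] at h3
      linarith
    rw [h1]
    have h5 : 2 * π * (384 / t' ^ 3) ≤ 1 / (512 * t) := by
      rw [mul_div_assoc', div_le_div_iff₀ (by positivity) (by positivity)]
      have hpi := Real.pi_lt_d2
      have h6 : 2 * π * 384 * (512 * t) ≤ 2 * 3.15 * 384 * (512 * t') := by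
        gcongr
      refine h6.trans ?_
      have h7 : (2000 : ℝ) ^ 2 ≤ t' ^ 2 := pow_le_pow_left₀ (by norm_num) (by linarith) 2
      have h8 := mul_le_mul_of_nonneg_right h7 ht'0.le
      linarith
    calc 2 * π * (Real.exp (-t') * Real.exp (-(t' / 4)))
        ≤ 2 * π * (Real.exp (-t') * (384 / t' ^ 3)) := by gcongr
      _ = Real.exp (-t') * (2 * π * (384 / t' ^ 3)) := by ring
      _ ≤ Real.exp (-t') * (1 / (512 * t)) := mul_le_mul_of_nonneg_left h5 hexp.le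
      _ = Real.exp (-t') / (512 * t) := by ring
  have hl2 : Real.log 2 ≤ 1 := by linarith [Real.log_two_lt_d9]
  have e6 : 1 / (32 * t) * (Real.exp (-t') / 8) ≤
      δ / σ * (Real.log (1 + (s - 1) / 2) - Real.log r) := by
    apply mul_le_mul e1 (by linarith) (by positivity) (by positivity)
  have e7 : 1 / (32 * t) * (Real.exp (-t') / 8) = 2 * (Real.exp (-t') / (512 * t)) := by
    field_simp
    norm_num
  have e8 : Real.exp (-t') / (512 * t) ≤
      mu.real {θ : ℝ | ‖ψ (circleMap 0 r θ) - ((x₀ - x₀ ^ d : ℝ) : ℂ)‖ < σ} := by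
    have h1 := mul_le_of_le_one_right hm0 hl2
    have h2 : 2 * π * Real.log s' ≤ 2 * π * Real.exp (-(5 / 4 * t')) :=
      mul_le_mul_of_nonneg_left e4 (by positivity)
    linarith
  refine le_trans ?_ (e8.trans hmono)
  -- the last comparison
  have e9 : Real.exp (-(b * t)) ≤ Real.exp (-t') := Real.exp_le_exp.2 (by linarith)
  have e10 : 2 * π * Real.exp (-((1 + η) * τ)) * (512 * t) ≤ Real.exp (-(b * t)) := by
    have h1 : b * t ≤ (1 + 9 / 16 * η) * τ := by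
      rw [ht, hb]
      have h2 : (1 + η / 4) * (1 + η / 4) ≤ 1 + 9 / 16 * η := aux_d hη hη1
      have h3 := mul_le_mul_of_nonneg_right h2 hτ0.le
      linarith
    have h2 : Real.exp (-(b * t)) = Real.exp (-((1 + η) * τ)) *
        Real.exp ((1 + η) * τ - b * t) := by
      rw [← Real.exp_add]
      congr 1
      ring
    rw [h2]
    have h3 : (7 / 16 * η * τ) ≤ (1 + η) * τ - b * t := by linarith
    have h4 : 2 * π * (512 * t) ≤ Real.exp ((1 + η) * τ - b * t) := by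
      refine le_trans ?_ (Real.exp_le_exp.2 h3)
      have h5 := Real.pow_div_factorial_le_exp (7 / 16 * η * τ) (by positivity) 2
      refine le_trans ?_ h5
      have h6 : ((Nat.factorial 2 : ℕ) : ℝ) = 2 := by simp [Nat.factorial]
      rw [h6]
      have h7 : 1000000 ≤ η ^ 2 * τ := by
        have h8 : 1000000 / η ^ 2 ≤ τ := by linarith
        rw [div_le_iff₀ (by positivity)] at h8
        linarith
      have h8 : t ≤ 5 / 4 * τ := by
        rw [ht, hb]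
        have h0 := mul_pos (sub_pos.2 hη1) hτ0
        linarith
      have h9 : 2 * π * (512 * t) ≤ 2 * 3.15 * (512 * (5 / 4 * τ)) := by
        have := Real.pi_lt_d2
        gcongr
      refine h9.trans ?_
      have h10 : (7 / 16 * η * τ) ^ 2 / 2 = 49 / 512 * (η ^ 2 * τ) * τ := by ring
      rw [h10]
      have h11 := mul_le_mul_of_nonneg_right h7 hτ0.le
      linarith
    have h5 := mul_le_mul_of_nonneg_left h4 (Real.exp_pos (-((1 + η) * τ))).le
    linarith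
  rw [le_div_iff₀ (by positivity)]
  exact e10.trans e9

end

theorem multibrot_main (d : ℕ) (hd : 2 ≤ d) :
    (∃ ψ : ℂ → ℂ, IsExteriorMap (multibrotSet d) ψ) ∧
    (∃ x₀ : ℝ, 0 < x₀ ∧ (d : ℝ) * x₀ ^ (d - 1) = 1) ∧
    ∀ (ψ : ℂ → ℂ) (x₀ : ℝ), IsExteriorMap (multibrotSet d) ψ → 0 < x₀ →
      (d : ℝ) * x₀ ^ (d - 1) = 1 → ∀ η ∈ Ioo (0 : ℝ) 1, ∃ ρ₀ : ℝ, 0 < ρ₀ ∧
        ∀ ρ ∈ Ioo 0 ρ₀, ∃ r₀ : ℝ, 1 < r₀ ∧ ∀ r ∈ Ioo 1 r₀,
          Real.exp (-((1 + η) * (π * Real.log d * √(2 * x₀ / ((d - 1) * ρ))))) ≤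
            (volume {θ ∈ Ioc 0 (2 * π) |
              ‖ψ (r * Complex.exp (θ * I)) - (x₀ - x₀ ^ d)‖ < ρ}).toReal / (2 * π) ∧
          (volume {θ ∈ Ioc 0 (2 * π) |
              ‖ψ (r * Complex.exp (θ * I)) - (x₀ - x₀ ^ d)‖ < ρ}).toReal / (2 * π) ≤
            Real.exp (-((1 - η) * (π * Real.log d * √(2 * x₀ / ((d - 1) * ρ))))) := by
  obtain ⟨β, hβ⟩ := exists_beta (d := d) hd
  obtain ⟨y, hy⟩ := exists_cusp hd
  refine ⟨⟨_, exteriorMap_of_beta hβ⟩, ⟨y, hy.pos, hy.eq⟩, ?_⟩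
  intro ψ x₀ hψ hx0 hxe η hη
  have hx : IsCusp d x₀ := ⟨hx0, hxe⟩
  obtain ⟨T₁, hT₁⟩ := upper_final hd hψ hx hη.1 hη.2
  obtain ⟨T₂, hT₂⟩ := lower_final hd hψ hx hη.1 hη.2
  have hd1 : (2 : ℝ) ≤ d := by exact_mod_cast hd
  have hl0 : 0 < Real.log d := Real.log_pos (by linarith)
  have hdm : (0 : ℝ) < (d : ℝ) - 1 := by linarith
  have hpi := Real.pi_pos
  obtain ⟨K, hK⟩ : ∃ K, K = (π * Real.log d) ^ 2 / ((d - 1) / (2 * x₀)) := ⟨_, rfl⟩
  have hK0 : 0 < K := by rw [hK]; positivity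
  obtain ⟨T, hT⟩ : ∃ T, T = max 1 (max T₁ T₂) := ⟨_, rfl⟩
  have hT0 : 1 ≤ T := by rw [hT]; exact le_max_left _ _
  refine ⟨K / T ^ 2, by positivity, ?_⟩
  intro ρ hρ
  have hρ0 : 0 < ρ := hρ.1
  obtain ⟨τ, hτ⟩ : ∃ τ, τ = π * Real.log d * √(2 * x₀ / ((d - 1) * ρ)) := ⟨_, rfl⟩
  have hτ0 : 0 < τ := by
    rw [hτ]
    have : 0 < √(2 * x₀ / ((d - 1) * ρ)) := Real.sqrt_pos.2 (by positivity)
    positivity
  have hτ2 : τ ^ 2 = K / ρ := by
    rw [hτ, mul_pow, Real.sq_sqrt (by positivity), hK]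
    field_simp
  have hρτ : ρ = K / τ ^ 2 := by
    rw [hτ2]
    field_simp
  have hTτ : T ≤ τ := by
    have h1 : T ^ 2 ≤ τ ^ 2 := by
      rw [hτ2, le_div_iff₀ hρ0]
      have h2 := hρ.2
      rw [lt_div_iff₀ (by positivity)] at h2
      linarith
    exact le_of_sq_le_sq h1 hτ0.le
  rw [hK] at hρτ
  obtain ⟨r₀, hr₀, hlow⟩ := hT₂ ρ τ hρ0 (by
    refine le_trans ?_ hTτ
    rw [hT]; exact (le_max_right _ _).trans (le_max_right _ _)) hρτ
  refine ⟨r₀, hr₀, fun r hr => ?_⟩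
  have hset : (volume {θ ∈ Ioc 0 (2 * π) |
      ‖ψ (r * Complex.exp (θ * I)) - (x₀ - x₀ ^ d)‖ < ρ}).toReal =
      mu.real {θ : ℝ | ‖ψ (circleMap 0 r θ) - ((x₀ - x₀ ^ d : ℝ) : ℂ)‖ < ρ} := by
    unfold Pool.Agent.H13MD.mu
    rw [measureReal_restrict_apply (set_meas hd hψ hx hr.1 ρ)]
    unfold Measure.real
    congr 2
    ext θ
    simp only [circleMap, zero_add, Set.mem_setOf_eq, Set.mem_inter_iff, Complex.ofReal_sub,
      Complex.ofReal_pow]
    tauto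
  rw [hset, ← hτ]
  have hup := hT₁ ρ τ hρ0 (by
    refine le_trans ?_ hTτ
    rw [hT]; exact (le_max_left _ _).trans (le_max_right _ _)) hρτ r hr.1
  have hlo := hlow r hr.1 hr.2
  constructor
  · rw [le_div_iff₀ (by positivity)]
    linarith
  · rw [div_le_iff₀ (by positivity)]
    linarith

end Pool.Agent.H13MU
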