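import Pool.Agent.H13MU.Sym

set_option autoImplicit false

/-! # The passage of a real orbit through the gate -/

namespace Pool.Agent.H13MU

open Set Filter Topology

/-- tangent line inequality -/
theorem tang {d : ℕ} {a b : ℝ} (ha : 0 < a) (hb : 0 ≤ b) :
    a ^ d + d * a ^ (d - 1) * (b - a) ≤ b ^ d := by
  rcases Nat.eq_zero_or_pos d with rfl | hd
  · simp
  obtain ⟨e, rfl⟩ : ∃ e, d = e + 1 := ⟨d - 1, by omega⟩
  have h1 := one_add_mul_le_pow (a := b / a - 1) (by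
    have : 0 ≤ b / a := div_nonneg hb ha.le
    linarith) (e + 1)
  rw [show 1 + (b / a - 1) = b / a by ring, div_pow, le_div_iff₀ (pow_pos ha _)] at h1
  rw [Nat.add_sub_cancel]
  have h3 : (1 + ((e + 1 : ℕ) : ℝ) * (b / a - 1)) * a ^ (e + 1) =
      a ^ (e + 1) + ((e + 1 : ℕ) : ℝ) * a ^ e * (b - a) := by
    rw [pow_succ]
    field_simp
  linarith

section

variable {d : ℕ} (hd : 2 ≤ d) {x₀ : ℝ} (hx : IsCusp d x₀)
include hd hx

/-- the excess function -/
theorem F_nonneg {y : ℝ} (hy : -x₀ ≤ y) : 0 ≤ (x₀ + y) ^ d - x₀ ^ d - y := by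
  have h1 := cusp_tangent hd hx (x := x₀ + y) (by linarith)
  linarith

theorem F_anti {y y' : ℝ} (hy : -x₀ ≤ y) (h : y ≤ y') (hy' : y' ≤ 0) :
    (x₀ + y') ^ d - x₀ ^ d - y' ≤ (x₀ + y) ^ d - x₀ ^ d - y := by
  rcases eq_or_lt_of_le (show 0 ≤ x₀ + y' by linarith) with h0 | h0
  · have h1 : y = y' := by linarith
    rw [h1]
  · have h1 := tang (d := d) h0 (show 0 ≤ x₀ + y by linarith)
    have h2 : (d : ℝ) * (x₀ + y') ^ (d - 1) ≤ 1 := by
      rw [← hx.eq]
      apply mul_le_mul_of_nonneg_left _ (Nat.cast_nonneg d)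
      exact pow_le_pow_left₀ h0.le (by linarith) _
    have h3 : (d : ℝ) * (x₀ + y') ^ (d - 1) * (y' - y) ≤ 1 * (y' - y) :=
      mul_le_mul_of_nonneg_right h2 (by linarith)
    nlinarith

theorem F_mono {y y' : ℝ} (hy : 0 ≤ y) (h : y ≤ y') :
    (x₀ + y) ^ d - x₀ ^ d - y ≤ (x₀ + y') ^ d - x₀ ^ d - y' := by
  have hx0 := hx.pos
  have h1 := tang (d := d) (show 0 < x₀ + y by linarith) (show 0 ≤ x₀ + y' by linarith)
  have h2 : 1 ≤ (d : ℝ) * (x₀ + y) ^ (d - 1) := by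
    rw [← hx.eq]
    apply mul_le_mul_of_nonneg_left _ (Nat.cast_nonneg d)
    exact pow_le_pow_left₀ hx0.le (by linarith) _
  have h3 : 1 * (y' - y) ≤ (d : ℝ) * (x₀ + y) ^ (d - 1) * (y' - y) :=
    mul_le_mul_of_nonneg_right h2 (by linarith)
  nlinarith

theorem F_quad {δ : ℝ} (hδ : 0 < δ) : ∃ η : ℝ, 0 < η ∧ ∀ y : ℝ, |y| ≤ η →
    (1 - δ) * ((d - 1) / (2 * x₀)) * y ^ 2 ≤ (x₀ + y) ^ d - x₀ ^ d - y ∧
    (x₀ + y) ^ d - x₀ ^ d - y ≤ (1 + δ) * ((d - 1) / (2 * x₀)) * y ^ 2 := by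
  have hx0 := hx.pos
  obtain ⟨e, rfl⟩ : ∃ e, d = e + 2 := ⟨d - 2, by omega⟩
  obtain ⟨R, hR⟩ : ∃ R : ℝ → ℝ, R = fun y => ∑ m ∈ Finset.range (e + 1),
    y ^ m * x₀ ^ (e - m) * ((e + 2).choose (m + 2) : ℝ) := ⟨_, rfl⟩
  have hRc : Continuous R := by
    rw [hR]
    fun_prop
  have heq : ∀ y, (x₀ + y) ^ (e + 2) - x₀ ^ (e + 2) - y = y ^ 2 * R y := by
    intro y
    have h1 := add_pow y x₀ (e + 2)
    rw [Finset.sum_range_succ', Finset.sum_range_succ'] at h1
    have h2 : ∑ k ∈ Finset.range (e + 1), y ^ (k + 1 + 1) * x₀ ^ (e + 2 - (k + 1 + 1)) *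
        ((e + 2).choose (k + 1 + 1) : ℝ) = y ^ 2 * R y := by
      rw [hR, Finset.mul_sum]
      apply Finset.sum_congr rfl
      intro m hm
      have : e + 2 - (m + 1 + 1) = e - m := by omega
      rw [this]
      ring
    rw [h2] at h1
    have h3 := hx.eq
    have h4 : e + 2 - 1 = e + 1 := by omega
    rw [h4] at h3
    have h5 : e + 2 - (0 + 1) = e + 1 := by omega
    rw [h5] at h1
    rw [add_comm x₀ y, h1]
    simp only [zero_add, pow_one, Nat.choose_one_right, pow_zero, Nat.sub_zero, Nat.choose_zero_right,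
      Nat.cast_one, mul_one, one_mul]
    linear_combination y * h3
  have hR0 : R 0 = ((e + 2 : ℕ) - 1 : ℝ) / (2 * x₀) := by
    rw [hR]
    simp only
    rw [Finset.sum_eq_single 0]
    · rw [pow_zero, one_mul, Nat.sub_zero]
      have h3 := hx.eq
      have h4 : e + 2 - 1 = e + 1 := by omega
      rw [h4, pow_succ] at h3
      have h5 : ((e + 2).choose (0 + 2) : ℝ) = ((e + 2 : ℕ) : ℝ) * (((e + 2 : ℕ) : ℝ) - 1) / 2 := by
        rw [zero_add, Nat.cast_choose_two]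
      rw [h5, eq_div_iff (by positivity)]
      linear_combination (((e + 2 : ℕ) : ℝ) - 1) * h3
    · intro m _ hm
      rw [zero_pow hm, zero_mul, zero_mul]
    · intro h
      exact absurd (Finset.mem_range.2 (by omega)) h
  obtain ⟨A, hA⟩ : ∃ A, A = ((e + 2 : ℕ) - 1 : ℝ) / (2 * x₀) := ⟨_, rfl⟩
  have hA0 : 0 < A := by
    rw [hA]
    have : (0 : ℝ) < ((e + 2 : ℕ) - 1 : ℝ) := by
      push_cast
      have : (0 : ℝ) ≤ e := Nat.cast_nonneg e
      linarith
    positivity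
  rw [← hA] at hR0 ⊢
  have h1 : ∀ᶠ y in 𝓝 (0 : ℝ), |R y - A| < δ * A := by
    have h2 := (hRc.tendsto 0)
    rw [hR0] at h2
    have h3 := (h2.sub_const A).abs
    rw [sub_self, abs_zero] at h3
    exact h3.eventually (gt_mem_nhds (by positivity))
  obtain ⟨η, hη, hball⟩ := Metric.eventually_nhds_iff.1 h1
  refine ⟨η / 2, by positivity, fun y hy => ?_⟩
  have h2 := hball (show dist y 0 < η by rw [Real.dist_eq, sub_zero]; linarith)
  obtain ⟨h3, h4⟩ := abs_lt.1 h2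
  rw [heq]
  have hy2 : 0 ≤ y ^ 2 := sq_nonneg y
  constructor
  · nlinarith
  · nlinarith

end

/-- the comparison function -/
theorem arctan_diff {B ε y y' : ℝ} (hB : 0 < B) (hε : 0 < ε) (h : y < y') :
    ∃ ξ ∈ Ioo y y', Real.arctan (y' * √(B / ε)) / √(B * ε) - Real.arctan (y * √(B / ε)) / √(B * ε) =
      (y' - y) / (B * ξ ^ 2 + ε) := by
  have hs1 : 0 < √(B / ε) := Real.sqrt_pos.2 (by positivity)
  have hs2 : 0 < √(B * ε) := Real.sqrt_pos.2 (by positivity)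
  have hd : ∀ x : ℝ, HasDerivAt (fun y => Real.arctan (y * √(B / ε)) / √(B * ε))
      (1 / (B * x ^ 2 + ε)) x := by
    intro x
    have h1 : HasDerivAt (fun y : ℝ => y * √(B / ε)) (√(B / ε)) x := by
      simpa using (hasDerivAt_id x).mul_const (√(B / ε))
    have h2 := (h1.arctan).div_const (√(B * ε))
    convert! h2 using 1
    have h3 : √(B / ε) ^ 2 = B / ε := Real.sq_sqrt (by positivity)
    have h4 : √(B / ε) / √(B * ε) = 1 / ε := by
      rw [div_eq_div_iff hs2.ne' hε.ne', one_mul]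
      have h5 : √(B * ε) = √(B / ε) * ε := by
        have h6 : B * ε = B / ε * ε ^ 2 := by field_simp
        rw [h6, Real.sqrt_mul (by positivity), Real.sqrt_sq hε.le]
      rw [h5]
    rw [mul_pow, h3]
    have h5 : 1 / (1 + x ^ 2 * (B / ε)) * √(B / ε) / √(B * ε) =
        1 / (1 + x ^ 2 * (B / ε)) * (√(B / ε) / √(B * ε)) := by ring
    rw [h5, h4]
    have h6 : 0 < 1 + x ^ 2 * (B / ε) := by positivity
    have h7 : 0 < B * x ^ 2 + ε := by positivity
    field_simp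
    ring
  obtain ⟨ξ, hξ, he⟩ := exists_hasDerivAt_eq_slope _ _ h
    (fun x _ => (hd x).continuousAt.continuousWithinAt) (fun x _ => hd x)
  refine ⟨ξ, hξ, ?_⟩
  rw [eq_div_iff (by linarith)] at he
  rw [← he]
  ring

theorem arctan_ge {x : ℝ} (hx : 0 < x) : Real.pi / 2 - 1 / x ≤ Real.arctan x := by
  have h1 := Real.arctan_inv_of_pos hx
  have h2 : Real.arctan x⁻¹ ≤ x⁻¹ := by
    have h3 := Real.le_tan (Real.arctan_nonneg.2 (inv_pos.2 hx).le)
      (Real.arctan_lt_pi_div_two x⁻¹)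
    rwa [Real.tan_arctan] at h3
  rw [one_div]
  linarith

end Pool.Agent.H13MU
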