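import Pool.Agent.H13MU.Gate

set_option autoImplicit false

/-! # The number of steps of a real orbit -/

namespace Pool.Agent.H13MU

open Set Filter Topology

theorem phi_mono {B ε y y' : ℝ} (hB : 0 < B) (hε : 0 < ε) (h : y ≤ y') :
    Real.arctan (y * √(B / ε)) / √(B * ε) ≤ Real.arctan (y' * √(B / ε)) / √(B * ε) := by
  have hs1 : 0 < √(B / ε) := Real.sqrt_pos.2 (by positivity)
  have hs2 : 0 < √(B * ε) := Real.sqrt_pos.2 (by positivity)
  apply div_le_div_of_nonneg_right _ hs2.le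
  exact Real.arctan_strictMono.monotone (mul_le_mul_of_nonneg_right h hs1.le)

theorem phi_ge {B ε y : ℝ} (hB : 0 < B) (hε : 0 < ε) (hy : 0 < y) :
    Real.pi / 2 / √(B * ε) - 1 / (B * y) ≤ Real.arctan (y * √(B / ε)) / √(B * ε) := by
  have hs1 : 0 < √(B / ε) := Real.sqrt_pos.2 (by positivity)
  have hs2 : 0 < √(B * ε) := Real.sqrt_pos.2 (by positivity)
  have h1 := arctan_ge (show 0 < y * √(B / ε) by positivity)
  have h2 : √(B / ε) * √(B * ε) = B := by
    rw [← Real.sqrt_mul (by positivity), show B / ε * (B * ε) = B ^ 2 by field_simp,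
      Real.sqrt_sq hB.le]
  have h3 : 1 / (B * y) = 1 / (y * √(B / ε)) / √(B * ε) := by
    rw [div_div, mul_assoc, h2, mul_comm]
  rw [h3, ← sub_div]
  exact div_le_div_of_nonneg_right h1 hs2.le

theorem phi_le {B ε y : ℝ} (hB : 0 < B) (hε : 0 < ε) :
    Real.arctan (y * √(B / ε)) / √(B * ε) ≤ Real.pi / 2 / √(B * ε) := by
  have hs2 : 0 < √(B * ε) := Real.sqrt_pos.2 (by positivity)
  exact div_le_div_of_nonneg_right (Real.arctan_lt_pi_div_two _).le hs2.le

theorem phi_ge' {B ε y : ℝ} (hB : 0 < B) (hε : 0 < ε) :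
    -(Real.pi / 2 / √(B * ε)) ≤ Real.arctan (y * √(B / ε)) / √(B * ε) := by
  have hs2 : 0 < √(B * ε) := Real.sqrt_pos.2 (by positivity)
  rw [← neg_div]
  exact div_le_div_of_nonneg_right (Real.neg_pi_div_two_lt_arctan _).le hs2.le

theorem gate {d : ℕ} (hd : 2 ≤ d) {x₀ : ℝ} (hx : IsCusp d x₀) {δ : ℝ} (hδ0 : 0 < δ)
    (hδ1 : δ ≤ 1 / 10) : ∃ ε₀ C : ℝ, 0 < ε₀ ∧ 0 < C ∧ ∀ (ε : ℝ) (x : ℕ → ℝ), 0 < ε → ε < ε₀ →
      x 0 = 0 → (∀ n, x (n + 1) = x n ^ d + ((x₀ - x₀ ^ d) + ε)) → ∃ k : ℕ,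
        (1 - δ) * (Real.pi / √((1 + δ) * ((d - 1) / (2 * x₀)) * ε)) - C ≤ k ∧
        (k : ℝ) ≤ (1 + δ) * (Real.pi / √((1 - δ) * ((d - 1) / (2 * x₀)) * ε)) + C ∧
        (∀ n : ℕ, n < k → x n ≤ 2) ∧ (∀ n : ℕ, (k : ℝ) + C ≤ n → 12 ≤ x n) := by
  have hx0 := hx.pos
  have hx1 := cusp_lt_one hd hx
  obtain ⟨η, hη, hquad⟩ := F_quad hd hx hδ0
  obtain ⟨A, hA⟩ : ∃ A : ℝ, A = (d - 1) / (2 * x₀) := ⟨_, rfl⟩
  rw [← hA] at hquad
  simp only [← hA]
  have hd1 : (2 : ℝ) ≤ d := by exact_mod_cast hd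
  have hA0 : 0 < A := by
    rw [hA]
    have : (0 : ℝ) < (d : ℝ) - 1 := by linarith
    positivity
  obtain ⟨Bp, hBp⟩ : ∃ B, B = (1 + δ) * A := ⟨_, rfl⟩
  obtain ⟨Bm, hBm⟩ : ∃ B, B = (1 - δ) * A := ⟨_, rfl⟩
  rw [← hBp, ← hBm] at hquad ⊢
  have hBp0 : 0 < Bp := by rw [hBp]; positivity
  have hBm0 : 0 < Bm := by rw [hBm]; exact mul_pos (by linarith) hA0
  have hBB : Bm ≤ Bp := by
    rw [hBm, hBp]
    exact mul_le_mul_of_nonneg_right (by linarith) hA0.le
  obtain ⟨μ, hμ⟩ : ∃ μ, μ = min η (min (x₀ / 2) (δ / (4 * Bp))) := ⟨_, rfl⟩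
  have hμ0 : 0 < μ := by rw [hμ]; positivity
  have hμη : μ ≤ η := by rw [hμ]; exact min_le_left _ _
  have hμx : μ ≤ x₀ / 2 := by rw [hμ]; exact (min_le_right _ _).trans (min_le_left _ _)
  have hμB : Bp * μ ≤ δ / 4 := by
    have h1 : μ ≤ δ / (4 * Bp) := by
      rw [hμ]; exact (min_le_right _ _).trans (min_le_right _ _)
    rw [le_div_iff₀ (by positivity)] at h1
    linarith
  have hμB' : Bm * μ ≤ δ / 4 := (mul_le_mul_of_nonneg_right hBB hμ0.le).trans hμB
  obtain ⟨m, hm⟩ : ∃ m, m = Bm * μ ^ 2 := ⟨_, rfl⟩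
  have hm0 : 0 < m := by rw [hm]; positivity
  refine ⟨μ / 4, x₀ / m + 12 / m + 3 / (Bp * μ), by positivity, by positivity, ?_⟩
  intro ε x hε hε0 hx00 hrec
  obtain ⟨y, hy⟩ : ∃ y : ℕ → ℝ, y = fun n => x n - x₀ := ⟨_, rfl⟩
  have hyx : ∀ n, x n = x₀ + y n := fun n => by rw [hy]; ring
  obtain ⟨F, hF⟩ : ∃ F : ℝ → ℝ, F = fun y => (x₀ + y) ^ d - x₀ ^ d - y := ⟨_, rfl⟩
  have hyrec : ∀ n, y (n + 1) = y n + (F (y n) + ε) := by
    intro n
    have h1 := hrec n
    rw [hyx, hyx n] at h1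
    rw [hF]
    linarith
  have hxn : ∀ n, 0 ≤ x n := by
    intro n
    induction n with
    | zero => rw [hx00]
    | succ n ih =>
      rw [hrec]
      have := cusp_c_pos hd hx
      positivity
  have hyn : ∀ n, -x₀ ≤ y n := fun n => by
    have := hxn n
    rw [hyx] at this
    linarith
  have hF0 : ∀ z, -x₀ ≤ z → 0 ≤ F z := fun z hz => by
    rw [hF]; exact F_nonneg hd hx hz
  have hstep : ∀ n, y n + ε ≤ y (n + 1) := fun n => by
    rw [hyrec]
    linarith [hF0 _ (hyn n)]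
  have hmono : Monotone y := monotone_nat_of_le_succ fun n => by linarith [hstep n]
  have hgrow : ∀ n : ℕ, -x₀ + n * ε ≤ y n := by
    intro n
    induction n with
    | zero =>
      have : y 0 = -x₀ := by rw [hy]; simp [hx00]
      rw [this]
      simp
    | succ n ih =>
      push_cast
      linarith [hstep n]
  have hex : ∀ M : ℝ, ∃ n, M < y n := by
    intro M
    obtain ⟨n, hn⟩ := exists_nat_gt ((M + x₀) / ε)
    refine ⟨n, ?_⟩
    rw [div_lt_iff₀ hε] at hn
    linarith [hgrow n]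
  have hex1 : ∃ n, -μ ≤ y n := by
    obtain ⟨n, hn⟩ := hex (-μ)
    exact ⟨n, hn.le⟩
  have hex2 : ∃ n, μ < y n := hex μ
  classical
  obtain ⟨k₁, hk₁⟩ : ∃ k, k = Nat.find hex1 := ⟨_, rfl⟩
  obtain ⟨k₂, hk₂⟩ : ∃ k, k = Nat.find hex2 := ⟨_, rfl⟩
  have hk1a : -μ ≤ y k₁ := by rw [hk₁]; exact Nat.find_spec hex1
  have hk1b : ∀ n, n < k₁ → y n < -μ := fun n hn => by
    rw [hk₁] at hn
    exact not_le.1 (Nat.find_min hex1 hn)
  have hk2a : μ < y k₂ := by rw [hk₂]; exact Nat.find_spec hex2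
  have hk2b : ∀ n, n < k₂ → y n ≤ μ := fun n hn => by
    rw [hk₂] at hn
    exact not_lt.1 (Nat.find_min hex2 hn)
  have hk1pos : 0 < k₁ := by
    rcases Nat.eq_zero_or_pos k₁ with h0 | h0
    · exfalso
      rw [h0] at hk1a
      have : y 0 = -x₀ := by rw [hy]; simp [hx00]
      linarith
    · exact h0
  have hFm : Bm * μ ^ 2 ≤ F (-μ) ∧ F (-μ) ≤ Bp * μ ^ 2 := by
    have h1 := hquad (-μ) (by rw [abs_neg, abs_of_pos hμ0]; exact hμη)
    rw [neg_sq] at h1
    rw [hF]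
    exact h1
  have hFp : Bm * μ ^ 2 ≤ F μ := by
    have h1 := hquad μ (by rw [abs_of_pos hμ0]; exact hμη)
    rw [hF]
    exact h1.1
  have hBμ2 : Bp * μ ^ 2 ≤ μ / 40 := by
    have h1 : Bp * μ ^ 2 = Bp * μ * μ := by ring
    rw [h1]
    have := mul_le_mul_of_nonneg_right hμB hμ0.le
    nlinarith
  -- the first point near the gate
  have hk1c : y k₁ ≤ -(μ / 2) := by
    obtain ⟨j, hj⟩ := Nat.exists_eq_add_of_le' hk1pos
    have h1 := hk1b j (by omega)
    have h2 := hyrec j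
    rw [← hj] at h2
    have h3 : y j + F (y j) ≤ -μ + F (-μ) := by
      have h4 : (x₀ + y j) ^ d ≤ (x₀ + -μ) ^ d :=
        pow_le_pow_left₀ (by rw [← hyx]; exact hxn j) (by linarith) d
      rw [hF]
      simp only
      linarith
    linarith [hFm.2]
  have hk12 : k₁ < k₂ := by
    by_contra hcon
    push Not at hcon
    have := hmono hcon
    linarith
  -- the phase near the gate
  have hgate : ∀ n, k₁ ≤ n → n < k₂ → |y n| ≤ μ := by
    intro n h1 h2
    rw [abs_le]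
    exact ⟨hk1a.trans (hmono h1), hk2b n h2⟩
  have hH : ∀ n, k₁ ≤ n → n < k₂ → Bm * y n ^ 2 + ε ≤ F (y n) + ε ∧
      F (y n) + ε ≤ Bp * y n ^ 2 + ε := by
    intro n h1 h2
    have h3 := hquad (y n) ((hgate n h1 h2).trans hμη)
    rw [hF]
    exact ⟨by linarith [h3.1], by linarith [h3.2]⟩
  have hsmall : ∀ n, k₁ ≤ n → n < k₂ → F (y n) + ε ≤ μ := by
    intro n h1 h2
    have h3 : y n ^ 2 ≤ μ ^ 2 := by
      rw [← sq_abs]
      exact pow_le_pow_left₀ (abs_nonneg _) (hgate n h1 h2) 2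
    have h4 := mul_le_mul_of_nonneg_left h3 hBp0.le
    linarith [(hH n h1 h2).2]
  -- upper bound of the increments
  have hup : ∀ n, k₁ ≤ n → n < k₂ →
      Real.arctan (y (n + 1) * √(Bp / ε)) / √(Bp * ε) -
        Real.arctan (y n * √(Bp / ε)) / √(Bp * ε) ≤ 1 / (1 - δ) := by
    intro n h1 h2
    obtain ⟨hl, hu⟩ := hH n h1 h2
    have hlt : y n < y (n + 1) := by linarith [hstep n]
    obtain ⟨ξ, hξ, he⟩ := arctan_diff hBp0 hε hlt
    rw [he]
    have hHe : y (n + 1) - y n = F (y n) + ε := by rw [hyrec]; ring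
    rw [hHe]
    obtain ⟨H, hHd⟩ : ∃ H, H = F (y n) + ε := ⟨_, rfl⟩
    rw [← hHd] at hl hu hHe ⊢
    have hH0 : 0 < H := by
      have : 0 ≤ Bm * y n ^ 2 := by positivity
      linarith
    have hab := abs_le.1 (hgate n h1 h2)
    have h3 : y n ^ 2 - 2 * μ * H ≤ ξ ^ 2 := by
      have h4 : 0 ≤ ξ - y n := by linarith [hξ.1]
      have h5 : ξ - y n ≤ H := by linarith [hξ.2]
      nlinarith [mul_le_mul_of_nonneg_left h5 hμ0.le,
        mul_nonneg (show 0 ≤ μ + y n by linarith [hab.1]) h4, sq_nonneg (ξ - y n)]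
    have h4 : (1 - δ) * (Bp * y n ^ 2 + ε) ≤ Bp * ξ ^ 2 + ε := by
      have h5 : Bp * (2 * μ * H) ≤ δ * (Bp * y n ^ 2 + ε) := by
        have h6 : Bp * (2 * μ * H) = 2 * (Bp * μ) * H := by ring
        rw [h6]
        have h7 : 2 * (Bp * μ) * H ≤ δ * H := by
          apply mul_le_mul_of_nonneg_right _ hH0.le
          linarith
        exact h7.trans (mul_le_mul_of_nonneg_left hu hδ0.le)
      have h6 := mul_le_mul_of_nonneg_left h3 hBp0.le
      nlinarith
    have h5 : 0 < Bp * ξ ^ 2 + ε := by positivity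
    rw [div_le_div_iff₀ h5 (by linarith)]
    have h6 : (1 - δ) * H ≤ (1 - δ) * (Bp * y n ^ 2 + ε) :=
      mul_le_mul_of_nonneg_left hu (by linarith)
    linarith
  -- lower bound of the increments
  have hdn : ∀ n, k₁ ≤ n → n < k₂ →
      1 / (1 + δ) ≤ Real.arctan (y (n + 1) * √(Bm / ε)) / √(Bm * ε) -
        Real.arctan (y n * √(Bm / ε)) / √(Bm * ε) := by
    intro n h1 h2
    obtain ⟨hl, hu⟩ := hH n h1 h2
    have hsm := hsmall n h1 h2
    have hlt : y n < y (n + 1) := by linarith [hstep n]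
    obtain ⟨ξ, hξ, he⟩ := arctan_diff hBm0 hε hlt
    rw [he]
    have hHe : y (n + 1) - y n = F (y n) + ε := by rw [hyrec]; ring
    rw [hHe]
    obtain ⟨H, hHd⟩ : ∃ H, H = F (y n) + ε := ⟨_, rfl⟩
    rw [← hHd] at hl hu hHe hsm ⊢
    have hH0 : 0 < H := by
      have : 0 ≤ Bm * y n ^ 2 := by positivity
      linarith
    have hab := abs_le.1 (hgate n h1 h2)
    have h3 : ξ ^ 2 ≤ y n ^ 2 + 3 * μ * H := by
      have h4 : 0 ≤ ξ - y n := by linarith [hξ.1]
      have h5 : ξ - y n ≤ H := by linarith [hξ.2]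
      have h6 : ξ ^ 2 = y n ^ 2 + 2 * y n * (ξ - y n) + (ξ - y n) ^ 2 := by ring
      have h7 : 2 * y n * (ξ - y n) ≤ 2 * μ * H := by
        have h8 : y n * (ξ - y n) ≤ μ * (ξ - y n) := mul_le_mul_of_nonneg_right hab.2 h4
        have h9 : μ * (ξ - y n) ≤ μ * H := mul_le_mul_of_nonneg_left h5 hμ0.le
        linarith
      have h8 : (ξ - y n) ^ 2 ≤ μ * H := by
        have h9 : (ξ - y n) ^ 2 ≤ H ^ 2 := pow_le_pow_left₀ h4 h5 2
        have h10 : H ^ 2 ≤ μ * H := by nlinarith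
        linarith
      linarith
    have h4 : Bm * ξ ^ 2 + ε ≤ (1 + δ) * H := by
      have h5 := mul_le_mul_of_nonneg_left h3 hBm0.le
      have h6 : Bm * (3 * μ * H) ≤ δ * H := by
        have h7 : Bm * (3 * μ * H) = 3 * (Bm * μ) * H := by ring
        rw [h7]
        apply mul_le_mul_of_nonneg_right _ hH0.le
        linarith
      nlinarith
    rw [div_le_div_iff₀ (by linarith) (by positivity)]
    linarith
  have hsum_up : ∀ j : ℕ, k₁ + j ≤ k₂ →
      Real.arctan (y (k₁ + j) * √(Bp / ε)) / √(Bp * ε) -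
        Real.arctan (y k₁ * √(Bp / ε)) / √(Bp * ε) ≤ j * (1 / (1 - δ)) := by
    intro j
    induction j with
    | zero => intro _; simp
    | succ j ih =>
      intro hj
      have h1 := ih (by omega)
      have h2 := hup (k₁ + j) (by omega) (by omega)
      rw [← add_assoc]
      push_cast
      linarith
  have hsum_dn : ∀ j : ℕ, k₁ + j ≤ k₂ →
      j * (1 / (1 + δ)) ≤ Real.arctan (y (k₁ + j) * √(Bm / ε)) / √(Bm * ε) -
        Real.arctan (y k₁ * √(Bm / ε)) / √(Bm * ε) := by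
    intro j
    induction j with
    | zero => intro _; simp
    | succ j ih =>
      intro hj
      have h1 := ih (by omega)
      have h2 := hdn (k₁ + j) (by omega) (by omega)
      rw [← add_assoc]
      push_cast
      linarith
  obtain ⟨j, hj⟩ := Nat.exists_eq_add_of_le hk12.le
  have hsu := hsum_up j hj.ge
  have hsd := hsum_dn j hj.ge
  rw [← hj] at hsu hsd
  -- the time before the gate
  have hk1le : (k₁ : ℝ) ≤ x₀ / m := by
    have h1 : ∀ n : ℕ, n ≤ k₁ → -x₀ + n * m ≤ y n := by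
      intro n
      induction n with
      | zero =>
        intro _
        have : y 0 = -x₀ := by rw [hy]; simp [hx00]
        rw [this]; simp
      | succ n ih =>
        intro hn
        have h2 := ih (by omega)
        have h3 := hk1b n (by omega)
        have h4 : F (-μ) ≤ F (y n) := by
          rw [hF]
          exact F_anti hd hx (hyn n) h3.le (by linarith)
        rw [hyrec]
        push_cast
        rw [← hm] at hFm
        linarith [hFm.1]
    have h2 := h1 k₁ le_rfl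
    rw [le_div_iff₀ hm0]
    linarith
  -- the time after the gate
  have hafter : ∀ i : ℕ, i * m ≤ y (k₂ + i) := by
    intro i
    induction i with
    | zero => simp; linarith
    | succ i ih =>
      have h1 : μ ≤ y (k₂ + i) := hk2a.le.trans (hmono (by omega))
      have h2 : F μ ≤ F (y (k₂ + i)) := by
        rw [hF]
        exact F_mono hd hx hμ0.le h1
      rw [← add_assoc, hyrec]
      push_cast
      rw [← hm] at hFp
      linarith
  have hCpos : 0 < 3 / (Bp * μ) := by positivity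
  have hx0m : 0 < x₀ / m := by positivity
  have h12m : 0 < 12 / m := by positivity
  refine ⟨k₂, ?_, ?_, ?_, ?_⟩
  · have h1 : Real.pi / √(Bp * ε) - 3 / (Bp * μ) ≤
        Real.arctan (y k₂ * √(Bp / ε)) / √(Bp * ε) -
          Real.arctan (y k₁ * √(Bp / ε)) / √(Bp * ε) := by
      have h2 := phi_mono hBp0 hε hk2a.le
      have h3 := phi_mono hBp0 hε hk1c
      have h4 := phi_ge hBp0 hε hμ0
      have h5 := phi_ge hBp0 hε (half_pos hμ0)
      have h6 : Real.arctan (-(μ / 2) * √(Bp / ε)) = -Real.arctan (μ / 2 * √(Bp / ε)) := by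
        rw [neg_mul, Real.arctan_neg]
      rw [h6, neg_div] at h3
      have h7 : 1 / (Bp * (μ / 2)) = 2 / (Bp * μ) := by
        field_simp
      rw [h7] at h5
      have h8 : Real.pi / √(Bp * ε) = Real.pi / 2 / √(Bp * ε) + Real.pi / 2 / √(Bp * ε) := by ring
      have h9 : 3 / (Bp * μ) = 1 / (Bp * μ) + 2 / (Bp * μ) := by ring
      rw [h8, h9]
      linarith
    have h2 := h1.trans hsu
    have h3 : (j : ℝ) ≤ k₂ := by exact_mod_cast (show j ≤ k₂ by omega)
    have h4 : (1 - δ) * (Real.pi / √(Bp * ε) - 3 / (Bp * μ)) ≤ j := by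
      have h5 := mul_le_mul_of_nonneg_left h2 (show 0 ≤ 1 - δ by linarith)
      have h6 : (1 - δ) * (j * (1 / (1 - δ))) = j := by
        have : 1 - δ ≠ 0 := by linarith
        field_simp
      linarith
    have h5 : 0 ≤ δ * (3 / (Bp * μ)) := by positivity
    nlinarith
  · have h1 := phi_le hBm0 hε (y := y k₂)
    have h2 := phi_ge' hBm0 hε (y := y k₁)
    have h3 : j * (1 / (1 + δ)) ≤ Real.pi / √(Bm * ε) := by
      have h8 : Real.pi / √(Bm * ε) = Real.pi / 2 / √(Bm * ε) + Real.pi / 2 / √(Bm * ε) := by ring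
      rw [h8]
      linarith
    have h4 : (j : ℝ) ≤ (1 + δ) * (Real.pi / √(Bm * ε)) := by
      have h5 := mul_le_mul_of_nonneg_left h3 (show 0 ≤ 1 + δ by linarith)
      have h6 : (1 + δ) * (j * (1 / (1 + δ))) = j := by
        have : 1 + δ ≠ 0 := by linarith
        field_simp
      linarith
    have h5 : (k₂ : ℝ) = k₁ + j := by exact_mod_cast hj
    rw [h5]
    linarith
  · intro n hn
    have := hk2b n hn
    rw [hyx]
    linarith
  · intro n hn
    have h1 : k₂ ≤ n := by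
      have : (k₂ : ℝ) ≤ n := by linarith
      exact_mod_cast this
    obtain ⟨i, rfl⟩ := Nat.exists_eq_add_of_le h1
    push_cast at hn
    have h2 : 12 / m ≤ i := by linarith
    rw [div_le_iff₀ hm0] at h2
    have h3 := hafter i
    rw [hyx]
    linarith

end Pool.Agent.H13MU
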