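import Pool.Agent.H713R2.Main3
import Mathlib.Analysis.Calculus.Deriv.Star

set_option autoImplicit false

/-! # The exterior maps of the Multibrot sets: symmetry, real axis, the cusp -/

namespace Pool.Agent.H13MU

open Complex Metric Set Filter Topology Bornology Pool.Agent.H712R2 Pool.Agent.H713R2 N62a1eb23
open scoped ComplexConjugate

theorem P_conj (d n : ℕ) (c : ℂ) : P d n (conj c) = conj (P d n c) := by
  induction n with
  | zero => simp [P_zero]
  | succ n ih => rw [P_succ, P_succ, ih, map_add, map_pow]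

theorem conj_mem {d : ℕ} (hd : 2 ≤ d) (c : ℂ) :
    conj c ∈ multibrotSet d ↔ c ∈ multibrotSet d := by
  rw [mem_multibrot_iff hd, mem_multibrot_iff hd]
  simp only [P_conj, Complex.norm_conj]

/-- the real critical orbit -/
def pr (d : ℕ) (c : ℝ) : ℕ → ℝ
  | 0 => 0
  | n + 1 => pr d c n ^ d + c

theorem pr_succ (d : ℕ) (c : ℝ) (n : ℕ) : pr d c (n + 1) = pr d c n ^ d + c := rfl

theorem P_real (d : ℕ) (c : ℝ) (n : ℕ) : P d n (c : ℂ) = ((pr d c n : ℝ) : ℂ) := by
  induction n with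
  | zero => simp [P_zero, pr]
  | succ n ih => rw [P_succ, ih, pr_succ]; push_cast; ring

theorem pr_nonneg {d : ℕ} {c : ℝ} (hc : 0 ≤ c) (n : ℕ) : 0 ≤ pr d c n := by
  induction n with
  | zero => exact le_rfl
  | succ n ih => rw [pr_succ]; positivity

theorem pr_mono {d : ℕ} {c c' : ℝ} (hc : 0 ≤ c) (h : c ≤ c') (n : ℕ) : pr d c n ≤ pr d c' n := by
  induction n with
  | zero => exact le_rfl
  | succ n ih =>
    rw [pr_succ, pr_succ]
    have := pow_le_pow_left₀ (pr_nonneg hc n) ih d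
    linarith

theorem P_cusp_le {d : ℕ} {c₀ : ℝ} (hc₀ : 0 ≤ c₀) (u : ℂ) (n : ℕ) :
    ‖P d n (c₀ + u)‖ ≤ pr d (c₀ + ‖u‖) n := by
  induction n with
  | zero => rw [P_zero, norm_zero]; exact le_rfl
  | succ n ih =>
    rw [P_succ, pr_succ]
    have h1 := norm_add_le (P d n (c₀ + u) ^ d) (c₀ + u)
    have h2 := norm_add_le (c₀ : ℂ) u
    have h3 : ‖(c₀ : ℂ)‖ = c₀ := by
      rw [Complex.norm_real, Real.norm_eq_abs, abs_of_nonneg hc₀]
    rw [norm_pow] at h1
    have h4 : ‖P d n (c₀ + u)‖ ^ d ≤ pr d (c₀ + ‖u‖) n ^ d :=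
      pow_le_pow_left₀ (norm_nonneg _) ih d
    linarith

/-- the parabolic fixed point: `x₀ > 0`, `d x₀ ^ (d - 1) = 1` -/
structure IsCusp (d : ℕ) (x₀ : ℝ) : Prop where
  pos : 0 < x₀
  eq : (d : ℝ) * x₀ ^ (d - 1) = 1

theorem exists_cusp {d : ℕ} (hd : 2 ≤ d) : ∃ x₀, IsCusp d x₀ := by
  have hd0 : (0 : ℝ) < d := by exact_mod_cast (show 0 < d by omega)
  refine ⟨((d : ℝ)⁻¹) ^ ((((d - 1 : ℕ) : ℝ))⁻¹), Real.rpow_pos_of_pos (by positivity) _, ?_⟩
  rw [Real.rpow_inv_natCast_pow (by positivity) (by omega), mul_inv_cancel₀ hd0.ne']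

section

variable {d : ℕ} (hd : 2 ≤ d) {x₀ : ℝ} (hx : IsCusp d x₀)
include hd hx

theorem cusp_lt_one : x₀ < 1 := by
  by_contra hcon
  push Not at hcon
  have h1 : 1 ≤ x₀ ^ (d - 1) := one_le_pow₀ hcon
  have h2 : (2 : ℝ) ≤ d := by exact_mod_cast hd
  have := hx.eq
  nlinarith

theorem cusp_pow : x₀ ^ d = x₀ / d := by
  have hd0 : (0 : ℝ) < d := by exact_mod_cast (show 0 < d by omega)
  obtain ⟨e, rfl⟩ : ∃ e, d = e + 1 := ⟨d - 1, by omega⟩
  have h1 := hx.eq
  rw [Nat.add_sub_cancel] at h1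
  rw [eq_div_iff hd0.ne', pow_succ]
  linear_combination x₀ * h1

theorem cusp_c_pos : 0 < x₀ - x₀ ^ d := by
  rw [cusp_pow hd hx]
  have h2 : (2 : ℝ) ≤ d := by exact_mod_cast hd
  have h3 := hx.pos
  have h4 : x₀ / d ≤ x₀ / 2 := div_le_div_of_nonneg_left h3.le (by norm_num) h2
  linarith

/-- the tangent line at the parabolic point -/
theorem cusp_tangent {x : ℝ} (hx0 : 0 ≤ x) : x ≤ x ^ d + (x₀ - x₀ ^ d) := by
  have h1 := one_add_mul_le_pow (a := x / x₀ - 1) (by
    have : 0 ≤ x / x₀ := div_nonneg hx0 hx.pos.le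
    linarith) d
  rw [show 1 + (x / x₀ - 1) = x / x₀ by ring, div_pow, le_div_iff₀ (pow_pos hx.pos d)] at h1
  have hd0 : (0 : ℝ) < d := by exact_mod_cast (show 0 < d by omega)
  have h2 := cusp_pow hd hx
  have h3 : (1 + (d : ℝ) * (x / x₀ - 1)) * x₀ ^ d = x₀ ^ d + (x - x₀) := by
    rw [h2]
    have := hx.pos.ne'
    field_simp
  linarith

theorem real_mem {c : ℝ} (h1 : 0 ≤ c) (h2 : c ≤ x₀ - x₀ ^ d) : (c : ℂ) ∈ multibrotSet d := by
  rw [mem_multibrot_iff hd]
  have key : ∀ k, pr d c k ≤ x₀ := by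
    intro k
    induction k with
    | zero => exact hx.pos.le
    | succ k ih =>
      rw [pr_succ]
      have := pow_le_pow_left₀ (pr_nonneg h1 k) ih d
      linarith
  intro k
  rw [P_real, Complex.norm_real, Real.norm_eq_abs, abs_of_nonneg (pr_nonneg h1 k)]
  have := cusp_lt_one hd hx
  linarith [key k]

end

section

variable {d : ℕ} (hd : 2 ≤ d) {ψ : ℂ → ℂ} (hψ : IsExteriorMap (multibrotSet d) ψ)

include hd hψ

omit hd hψ in
theorem isOpen_ext' : IsOpen {z : ℂ | 1 < ‖z‖} := isOpen_lt continuous_const continuous_norm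

theorem ext_conj : IsExteriorMap (multibrotSet d) (fun z => conj (ψ (conj z))) := by
  refine ⟨?_, ?_, ?_, ?_⟩
  · intro z hz
    have h1 : 1 < ‖conj z‖ := by rw [Complex.norm_conj]; exact hz
    have h2 : DifferentiableAt ℂ ψ (conj z) := hψ.diff.differentiableAt (isOpen_ext'.mem_nhds h1)
    have h3 := h2.conj_conj
    rw [Complex.conj_conj] at h3
    exact h3.differentiableWithinAt
  · intro z hz w hw h
    have h1 : 1 < ‖conj z‖ := by rw [Complex.norm_conj]; exact hz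
    have h2 : 1 < ‖conj w‖ := by rw [Complex.norm_conj]; exact hw
    have h3 := (starRingEnd ℂ).injective h
    exact (starRingEnd ℂ).injective (hψ.inj h1 h2 h3)
  · ext c
    constructor
    · rintro ⟨z, hz, rfl⟩
      have h1 : 1 < ‖conj z‖ := by rw [Complex.norm_conj]; exact hz
      have h2 : ψ (conj z) ∈ (multibrotSet d)ᶜ := by
        rw [← hψ.image]
        exact mem_image_of_mem _ h1
      intro h3
      simp only at h3
      rw [conj_mem hd] at h3
      exact h2 h3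
    · intro hc
      have h1 : conj c ∈ (multibrotSet d)ᶜ := by
        intro h
        rw [conj_mem hd] at h
        exact hc h
      rw [← hψ.image] at h1
      obtain ⟨w, hw, hw2⟩ := h1
      refine ⟨conj w, ?_, ?_⟩
      · show 1 < ‖conj w‖
        rw [Complex.norm_conj]
        exact hw
      · simp only [Complex.conj_conj]
        rw [hw2, Complex.conj_conj]
  · have h1 : Tendsto (fun z : ℂ => conj z) (cobounded ℂ) (cobounded ℂ) := by
      rw [← tendsto_norm_atTop_iff_cobounded]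
      simp only [Complex.norm_conj]
      exact tendsto_norm_cobounded_atTop
    have h2 := hψ.infinity.comp h1
    have h3 := (Complex.continuous_conj.tendsto (1 : ℂ)).comp h2
    rw [map_one] at h3
    refine h3.congr fun z => ?_
    simp only [Function.comp_apply, map_div₀, Complex.conj_conj]

theorem ext_unique {φ : ℂ → ℂ} (hφ : IsExteriorMap (multibrotSet d) φ) {z : ℂ} (hz : 1 < ‖z‖) :
    φ z = ψ z := by
  obtain ⟨β, hβ⟩ := exists_beta (d := d) hd
  rw [exteriorMap_unique hβ hψ hz, exteriorMap_unique hβ hφ hz]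

theorem psi_conj {z : ℂ} (hz : 1 < ‖z‖) : ψ (conj z) = conj (ψ z) := by
  have h1 := ext_unique hd hψ (ext_conj hd hψ) hz
  rw [← h1, Complex.conj_conj]

omit hd in
theorem psi_notMem {z : ℂ} (hz : 1 < ‖z‖) : ψ z ∉ multibrotSet d := by
  have h1 : ψ z ∈ (multibrotSet d)ᶜ := by
    rw [← hψ.image]
    exact mem_image_of_mem _ hz
  exact h1

omit hd in
theorem psi_cont : ContinuousOn ψ {z : ℂ | 1 < ‖z‖} := hψ.diff.continuousOn

/-- real points are mapped to real points outside of `[-2, 1/4]`, and only real points are -/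
theorem real_iff {z : ℂ} (hz : 1 < ‖z‖) : (ψ z).im = 0 ↔ z.im = 0 := by
  constructor
  · intro h
    have h1 : conj (ψ z) = ψ z := Complex.conj_eq_iff_im.2 h
    rw [← psi_conj hd hψ hz] at h1
    have h2 : 1 < ‖conj z‖ := by rw [Complex.norm_conj]; exact hz
    exact Complex.conj_eq_iff_im.1 (hψ.inj h2 hz h1)
  · intro h
    have h1 : conj z = z := Complex.conj_eq_iff_im.2 h
    have h2 := psi_conj hd hψ hz
    rw [h1] at h2
    exact Complex.conj_eq_iff_im.1 h2.symm

omit hd in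
theorem near_inf : ∃ R : ℝ, 1 < R ∧ ∀ z : ℂ, R ≤ ‖z‖ → ‖ψ z - z‖ ≤ ‖z‖ / 4 := by
  have h1 := hψ.infinity.eventually (ball_mem_nhds (1 : ℂ) (show (0 : ℝ) < 1 / 4 by norm_num))
  rw [← comap_norm_atTop] at h1
  rw [eventually_comap] at h1
  obtain ⟨R, hR⟩ := eventually_atTop.1 h1
  refine ⟨max R 2, lt_of_lt_of_le (by norm_num) (le_max_right _ _), ?_⟩
  intro z hz
  have h2 := hR ‖z‖ ((le_max_left _ _).trans hz) z rfl
  have hz0 : 0 < ‖z‖ := lt_of_lt_of_le (by norm_num) ((le_max_right R 2).trans hz)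
  have hzne : z ≠ 0 := norm_pos_iff.1 hz0
  rw [dist_eq_norm] at h2
  have h3 : ψ z - z = (ψ z / z - 1) * z := by field_simp
  rw [h3, norm_mul]
  nlinarith

theorem psi_real_pos {x₀ : ℝ} (hx : IsCusp d x₀) {r : ℝ} (hr : 1 < r) :
    ∃ c : ℝ, ψ r = c ∧ x₀ - x₀ ^ d < c := by
  have hn : ∀ s : ℝ, 1 < s → 1 < ‖(s : ℂ)‖ := fun s hs => by
    rw [Complex.norm_real, Real.norm_eq_abs, abs_of_pos (by linarith)]; exact hs
  have him : ∀ s : ℝ, 1 < s → ψ s = ((ψ s).re : ℂ) := fun s hs => by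
    apply Complex.ext
    · simp
    · rw [Complex.ofReal_im]
      exact (real_iff hd hψ (hn s hs)).2 (Complex.ofReal_im s)
  have hc0 := cusp_c_pos hd hx
  have hav : ∀ s : ℝ, 1 < s → (ψ s).re < 0 ∨ x₀ - x₀ ^ d < (ψ s).re := fun s hs => by
    by_contra h
    push Not at h
    have h1 := real_mem hd hx h.1 h.2
    rw [← him s hs] at h1
    exact psi_notMem hψ (hn s hs) h1
  refine ⟨(ψ r).re, him r hr, ?_⟩
  rcases hav r hr with h | h
  swap
  · exact h
  exfalso
  obtain ⟨R, hR1, hR⟩ := near_inf hψ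
  obtain ⟨S, hS⟩ : ∃ S, S = max R r := ⟨_, rfl⟩
  have hS1 : 1 < S := by rw [hS]; exact lt_of_lt_of_le hR1 (le_max_left _ _)
  have hSn : ‖(S : ℂ)‖ = S := by
    rw [Complex.norm_real, Real.norm_eq_abs, abs_of_pos (by linarith)]
  have h2 := hR S (by rw [hSn, hS]; exact le_max_left _ _)
  have h3 := (abs_le.1 ((abs_re_le_norm (ψ S - S)).trans h2)).1
  rw [hSn, Complex.sub_re, Complex.ofReal_re] at h3
  have hcont : ContinuousOn (fun s : ℝ => (ψ s).re) (Icc r S) := by
    apply Complex.continuous_re.comp_continuousOn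
    exact (psi_cont hψ).comp Complex.continuous_ofReal.continuousOn
      (fun s hs => hn s (lt_of_lt_of_le hr hs.1))
  have h4 := intermediate_value_Icc (by rw [hS]; exact le_max_right _ _) hcont
  obtain ⟨s, hs, hs2⟩ := h4 (show (0 : ℝ) ∈ Icc _ _ from ⟨by linarith, by linarith⟩)
  simp only at hs2
  rcases hav s (lt_of_lt_of_le hr hs.1) with h5 | h5 <;> linarith

end

end Pool.Agent.H13MU
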